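import Pool.Agent.H68.GB.Stm

set_option autoImplicit false

/-!
# The enumeration of the points of a system of cells
-/

namespace Pool.Agent.H68.GB

open MeasureTheory Filter Topology Set Pool.Agent.H49.BP

namespace Enu

noncomputable section

/-- the number of points in the cells before `n` -/
def M (c : ℕ → ℕ) (n : ℕ) : ℕ := ∑ k ∈ Finset.range n, c k

theorem M_zero (c : ℕ → ℕ) : M c 0 = 0 := by simp [M]

theorem M_succ (c : ℕ → ℕ) (n : ℕ) : M c (n + 1) = M c n + c n := by
  rw [M, M, Finset.sum_range_succ]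

theorem M_mono (c : ℕ → ℕ) : Monotone (M c) :=
  monotone_nat_of_le_succ fun n => by rw [M_succ]; exact Nat.le_add_right _ _

theorem M_le {c : ℕ → ℕ} (hc : ∀ n, c n ≤ 4) (n : ℕ) : M c n ≤ 4 * n := by
  induction n with
  | zero => simp [M_zero]
  | succ n ih =>
    rw [M_succ]
    have := hc n
    omega

theorem M_ex {c : ℕ → ℕ} (h : ∀ j, ∃ n, j < M c n) (j : ℕ) : ∃ n, M c n ≤ j ∧ j < M c (n + 1) := by
  classical
  have hj := Nat.find_spec (h j)
  have hpos : 0 < Nat.find (h j) := by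
    rcases Nat.eq_zero_or_pos (Nat.find (h j)) with h0 | h0
    · rw [h0, M_zero] at hj
      exact absurd hj (Nat.not_lt_zero _)
    · exact h0
  refine ⟨Nat.find (h j) - 1, ?_, ?_⟩
  · exact not_lt.mp (Nat.find_min (h j) (Nat.sub_lt hpos one_pos))
  · rw [Nat.sub_add_cancel hpos]
    exact hj

theorem M_uniq {c : ℕ → ℕ} {j a b : ℕ} (h1 : M c a ≤ j) (h2 : j < M c (a + 1)) (h3 : M c b ≤ j)
    (h4 : j < M c (b + 1)) : a = b := by
  rcases lt_trichotomy a b with h | h | h
  · exact absurd (lt_of_lt_of_le h2 ((M_mono c (Nat.succ_le_of_lt h)).trans h3)) (lt_irrefl _)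
  · exact h
  · exact absurd (lt_of_lt_of_le h4 ((M_mono c (Nat.succ_le_of_lt h)).trans h1)) (lt_irrefl _)

/-- the number of points is infinite -/
theorem M_unbdd {c : ℕ → ℕ} {C : ℝ} (hC : ∀ n : ℕ, |(M c n : ℝ) - n| ≤ C * (n : ℝ) ^ ((1 : ℝ) / 2 + 1 / 4)) (j : ℕ) :
    ∃ n, j < M c n := by
  obtain ⟨K, hK⟩ := exists_nat_gt (C + j + 1)
  have hK1 : (1 : ℝ) ≤ ((K + 1 : ℕ) : ℝ) := by
    push_cast
    linarith [(Nat.cast_nonneg K : (0 : ℝ) ≤ K)]
  have hK2 : C + j + 1 < ((K + 1 : ℕ) : ℝ) := by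
    push_cast
    linarith
  refine ⟨(K + 1) ^ 4, ?_⟩
  set k : ℝ := ((K + 1 : ℕ) : ℝ) with hk
  have h1 := hC ((K + 1) ^ 4)
  have h2 : (((K + 1) ^ 4 : ℕ) : ℝ) = k ^ 4 := by rw [hk]; push_cast; ring
  rw [h2] at h1
  have h3 : (k ^ 4 : ℝ) ^ ((1 : ℝ) / 2 + 1 / 4) = k ^ 3 := by
    rw [← Real.rpow_natCast k 4, ← Real.rpow_mul (by linarith), ← Real.rpow_natCast k 3]
    norm_num
  rw [h3] at h1
  have h4 := (abs_le.1 h1).1
  have h5 : (1 : ℝ) ≤ k ^ 3 := one_le_pow₀ hK1
  have h6 : (j : ℝ) + 1 ≤ k - C := by linarith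
  have h7 : (j : ℝ) + 1 ≤ k ^ 3 * (k - C) := by
    have hj : (0 : ℝ) ≤ j := Nat.cast_nonneg j
    nlinarith
  have h8 : (j : ℝ) < (M c ((K + 1) ^ 4) : ℝ) := by
    have h9 : k ^ 3 * (k - C) = k ^ 4 - C * k ^ 3 := by ring
    linarith
  exact_mod_cast h8

theorem em_zero (u : ℝ) : em 0 u = 1 := by
  unfold Pool.Agent.H49.BP.em
  simp

theorem ci_sum (m : ℤ) (n : ℕ) : ∑ k ∈ Finset.range n, ci m k = BB m (tt n) := by
  unfold BB
  have h1 := intervalIntegral.sum_integral_adjacent_intervals (a := fun j => tt j) (n := n) (μ := volume)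
    (f := fun u => em m u * (md u : ℂ)) (fun k _ => mdg_int (em_meas m) (fun u => (em_norm m u).le)
      (tt_one_le _) (tt_one_le _))
  simp only [tt_zero] at h1
  rw [← h1]
  rfl

theorem ci_zero (n : ℕ) : ci 0 n = 1 := by
  unfold ci
  have h1 : (fun u => em 0 u * (md u : ℂ)) = fun u => ((md u : ℝ) : ℂ) := by
    funext u
    rw [em_zero, one_mul]
  rw [h1, intervalIntegral.integral_ofReal, ← MM_sub (tt_one_le _) (tt_one_le _), MM_tt, MM_tt]
  push_cast
  ring

theorem cs_zero (c : ℕ) (θ : ℝ) (n : ℕ) : cs 0 c θ n = c := by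
  unfold cs
  rw [Finset.sum_congr rfl (fun i _ => em_zero _)]
  simp

/-- the argument of a point -/
def ar (c : ℕ → ℕ) (θ : ℕ → ℝ) (n i : ℕ) : ℝ := n + (θ n + i) / c n

theorem ar_ge {c : ℕ → ℕ} {θ : ℕ → ℝ} (hθ : ∀ n, 0 ≤ θ n ∧ θ n < 1) (n i : ℕ) : (n : ℝ) ≤ ar c θ n i := by
  unfold ar
  have h1 : 0 ≤ (θ n + i) / c n := by
    have := (hθ n).1
    positivity
  linarith

theorem ar_lt {c : ℕ → ℕ} {θ : ℕ → ℝ} (hθ : ∀ n, 0 ≤ θ n ∧ θ n < 1) {n i : ℕ} (hi : i < c n) :
    ar c θ n i < (n : ℝ) + 1 := by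
  unfold ar
  have hc : (0 : ℝ) < c n := by exact_mod_cast (lt_of_le_of_lt (Nat.zero_le _) hi)
  have h1 : (θ n + i) / c n < 1 := by
    rw [div_lt_one hc]
    have h2 : ((i : ℝ) + 1) ≤ c n := by exact_mod_cast hi
    linarith [(hθ n).2]
  linarith

theorem ar_lt_ar {c : ℕ → ℕ} {θ : ℕ → ℝ} {n i j : ℕ} (hj : j < c n) (hij : i < j) :
    ar c θ n i < ar c θ n j := by
  unfold ar
  have hc : (0 : ℝ) < c n := by exact_mod_cast (lt_of_le_of_lt (Nat.zero_le _) hj)
  have h1 : (i : ℝ) < j := by exact_mod_cast hij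
  have h2 : (θ n + i) / c n < (θ n + j) / c n := by
    rw [div_lt_div_iff_of_pos_right hc]
    linarith
  linarith

theorem sum_diff {f : ℕ → ℂ} (hf : ∀ j, ‖f j‖ ≤ 1) {a b : ℕ} (h : a ≤ b) :
    ‖∑ j ∈ Finset.range b, f j - ∑ j ∈ Finset.range a, f j‖ ≤ (b : ℝ) - a := by
  rw [← Finset.sum_Ico_eq_sub _ h]
  refine (norm_sum_le _ _).trans ?_
  refine (Finset.sum_le_sum fun j _ => hf j).trans ?_
  rw [Finset.sum_const, Nat.card_Ico, nsmul_eq_mul, mul_one, Nat.cast_sub h]

end

end Enu

open Enu in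
theorem t_ENU (inv : S_INV) (_avg : S_AVG) : S_ENU := by
  classical
  intro c θ hS
  obtain ⟨hc, hθ, ⟨A0, hA0, hcz, htt⟩, hD⟩ := hS
  obtain ⟨hF1, -, hFn, hFs, hFm, -, -, -, -, -⟩ := inv
  -- the number of the points
  have hunb : ∀ j, ∃ n, j < M c n := by
    obtain ⟨C, hC0, hC⟩ := hD (1 / 4) (by norm_num)
    refine M_unbdd (C := C * LL 0) fun n => ?_
    have h1 := hC 0 n
    have h2 : ∑ n' ∈ Finset.range n, (cs 0 (c n') (θ n') n' - ci 0 n') = (((M c n : ℝ) - n : ℝ) : ℂ) := by
      rw [Finset.sum_congr rfl (fun n' _ => by rw [cs_zero, ci_zero]), Finset.sum_sub_distrib]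
      unfold M
      push_cast
      simp
    rw [h2, Complex.norm_real, Real.norm_eq_abs] at h1
    refine h1.trans (le_of_eq ?_)
    ring
  choose N hN1 hN2 using M_ex hunb
  have hNi : ∀ j, j - M c (N j) < c (N j) := by
    intro j
    have h1 := hN1 j
    have h2 := hN2 j
    rw [M_succ] at h2
    omega
  have hNA : ∀ j, A0 ≤ N j := by
    intro j
    by_contra h
    push Not at h
    have h1 := hNi j
    rw [hcz _ h] at h1
    exact absurd h1 (Nat.not_lt_zero _)
  set q : ℕ → ℝ := fun j => F (ar c θ (N j) (j - M c (N j))) with hq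
  have har0 : ∀ n i, ar c θ n i ∈ Ici (0 : ℝ) := fun n i => (Nat.cast_nonneg n).trans (ar_ge hθ n i)
  have hmono : StrictMono q := by
    intro j j' hjj
    rw [hq]
    refine hFs (har0 _ _) (har0 _ _) ?_
    have hle : N j ≤ N j' := by
      by_contra h
      push Not at h
      have h1 := hN2 j'
      have h2 := M_mono c (Nat.succ_le_of_lt h)
      have h3 := hN1 j
      have h4 : M c (N j' + 1) ≤ j := h2.trans h3
      omega
    rcases hle.lt_or_eq with h | h
    · have h1 := ar_lt hθ (hNi j)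
      have h2 := ar_ge (c := c) hθ (N j') (j' - M c (N j'))
      have h3 : (N j : ℝ) + 1 ≤ N j' := by exact_mod_cast h
      linarith
    · rw [← h]
      have h1 := hNi j'
      rw [← h] at h1
      have h2 := hN1 j
      exact ar_lt_ar h1 (by omega)
  have hge : ∀ j : ℕ, (j : ℝ) + 1 ≤ q j := by
    intro j
    have h1 : tt (N j) ≤ q j := by
      rw [← hFn]
      exact hFm (ar_ge hθ _ _)
    have h2 := htt (N j) (hNA j)
    have h3 := (hN2 j).trans_le (M_le hc _)
    have h4 : (j : ℝ) < 4 * ((N j : ℝ) + 1) := by exact_mod_cast h3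
    linarith
  have hval : ∀ n i, i < c n → q (M c n + i) = pt (c n) (θ n) n i := by
    intro n i hi
    have h1 : N (M c n + i) = n := by
      refine M_uniq (hN1 _) (hN2 _) (Nat.le_add_right _ _) ?_
      rw [M_succ]
      omega
    show F (ar c θ (N (M c n + i)) (M c n + i - M c (N (M c n + i)))) = _
    rw [h1, Nat.add_sub_cancel_left]
    rfl
  refine ⟨q, hmono, hge, ?_, fun j => ⟨N j, j - M c (N j), hNi j, rfl⟩, ?_⟩
  · have h1 : tt (N 0) ≤ q 0 := by
      rw [← hFn]
      exact hFm (ar_ge hθ _ _)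
    have h2 := tt_two (hA0.trans (hNA 0))
    linarith
  · have hsum : ∀ (m : ℤ) (n : ℕ), ∑ j ∈ Finset.range (M c n), em m (q j) =
        ∑ n' ∈ Finset.range n, cs m (c n') (θ n') n' := by
      intro m n
      induction n with
      | zero => rw [M_zero]; simp
      | succ n ih =>
        rw [Finset.sum_range_succ (fun n' => cs m (c n') (θ n') n') n, M_succ, Finset.sum_range_add, ih]
        congr 1
        unfold cs
        refine Finset.sum_congr rfl fun i hi => ?_
        rw [hval n i (Finset.mem_range.1 hi)]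
    intro δ hδ
    obtain ⟨C, hC0, hC⟩ := hD δ hδ
    refine ⟨C + 5, by positivity, fun m x hx => ?_⟩
    obtain ⟨n, hn1, hn2⟩ := exists_slot hx
    have hL1 : 1 ≤ √(Real.log (|(m : ℝ)| + 3)) := by
      rw [Real.one_le_sqrt, Real.le_log_iff_exp_le (by positivity)]
      have := Real.exp_one_lt_d9
      have := abs_nonneg (m : ℝ)
      linarith
    have hx0 : 0 < x := by linarith
    have hx1 : 1 ≤ x ^ (1 / 2 + δ) := Real.one_le_rpow hx (by linarith)
    have hnx : (n : ℝ) ≤ x := by
      have := tt_ge n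
      linarith
    have hp1 : M c n ≤ pc q x := by
      rcases Nat.eq_zero_or_pos (M c n) with h | h
      · rw [h]
        exact Nat.zero_le _
      · have h1 : M c n - 1 < pc q x := by
          rw [lt_pc hmono hge]
          have h2 : N (M c n - 1) < n := by
            by_contra h3
            push Not at h3
            have h4 := M_mono c h3
            have h5 := hN1 (M c n - 1)
            omega
          have h3 : q (M c n - 1) ≤ tt n := by
            rw [← hFn]
            refine hFm ?_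
            have h4 := ar_lt hθ (hNi (M c n - 1))
            have h5 : (N (M c n - 1) : ℝ) + 1 ≤ n := by exact_mod_cast h2
            linarith
          exact h3.trans hn1
        omega
    have hp2 : pc q x ≤ M c n + 4 := by
      have h0 : pc q x ≤ M c (n + 1) := by
        by_contra h3
        push Not at h3
        rw [lt_pc hmono hge] at h3
        have h4 : n + 1 ≤ N (M c (n + 1)) := by
          by_contra h5
          push Not at h5
          have h6 := M_mono c (Nat.succ_le_of_lt h5)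
          have h7 := hN2 (M c (n + 1))
          exact absurd (h7.trans_le h6) (lt_irrefl _)
        have h5 : tt (n + 1) ≤ q (M c (n + 1)) := by
          rw [← hFn]
          refine hFm ?_
          have h6 := ar_ge (c := c) hθ (N (M c (n + 1))) (M c (n + 1) - M c (N (M c (n + 1))))
          have h7 : ((n + 1 : ℕ) : ℝ) ≤ N (M c (n + 1)) := by exact_mod_cast h4
          linarith
        linarith
      rw [M_succ] at h0
      have := hc n
      omega
    have d1 : ‖AA q m x - ∑ j ∈ Finset.range (M c n), em m (q j)‖ ≤ 4 := by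
      unfold AA
      refine (sum_diff (f := fun j => em m (q j)) (fun j => (em_norm m _).le) hp1).trans ?_
      have h2 : (pc q x : ℝ) ≤ ((M c n + 4 : ℕ) : ℝ) := by exact_mod_cast hp2
      push_cast at h2
      linarith
    have d2 : ‖BB m (tt n) - BB m x‖ ≤ 1 := by
      have hi1 := mdg_int (g := em m) (em_meas m) (fun u => (em_norm m u).le) le_rfl (tt_one_le n)
      have hi2 := mdg_int (g := em m) (em_meas m) (fun u => (em_norm m u).le) le_rfl hx
      have h1 : BB m x - BB m (tt n) = ∫ u in (tt n)..x, em m u * (md u : ℂ) := by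
        unfold BB
        exact intervalIntegral.integral_interval_sub_left hi2 hi1
      rw [norm_sub_rev, h1]
      have h2 : ‖∫ u in (tt n)..x, em m u * (md u : ℂ)‖ ≤ ∫ u in (tt n)..x, md u := by
        refine intervalIntegral.norm_integral_le_of_norm_le hn1 (Eventually.of_forall fun u hu => ?_)
          (md_int (tt_one_le _) hx)
        have hu1 : 1 ≤ u := (tt_one_le n).trans hu.1.le
        rw [norm_mul, em_norm, one_mul, Complex.norm_real, Real.norm_of_nonneg (md_nonneg hu1)]
      refine h2.trans ?_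
      rw [← MM_sub (tt_one_le _) hx, MM_tt]
      have h3 := MM_le hx hn2.le
      rw [MM_tt] at h3
      push_cast at h3
      linarith
    have d3 : ‖∑ j ∈ Finset.range (M c n), em m (q j) - BB m (tt n)‖ ≤
        C * x ^ (1 / 2 + δ) * √(Real.log (|(m : ℝ)| + 3)) := by
      rw [hsum, ← ci_sum, ← Finset.sum_sub_distrib]
      refine (hC m n).trans ?_
      have h4 : (n : ℝ) ^ (1 / 2 + δ) ≤ x ^ (1 / 2 + δ) := Real.rpow_le_rpow (Nat.cast_nonneg n) hnx (by linarith)
      unfold LL
      gcongr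
    have hfin : AA q m x - BB m x = (AA q m x - ∑ j ∈ Finset.range (M c n), em m (q j)) +
        (∑ j ∈ Finset.range (M c n), em m (q j) - BB m (tt n)) + (BB m (tt n) - BB m x) := by ring
    rw [hfin]
    refine (norm_add_le _ _).trans ?_
    refine (add_le_add ((norm_add_le _ _).trans (add_le_add d1 d3)) d2).trans ?_
    have e1 : 1 ≤ x ^ (1 / 2 + δ) * √(Real.log (|(m : ℝ)| + 3)) := by nlinarith
    nlinarith

end Pool.Agent.H68.GB
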