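import Pool.Agent.H68.GB.Stm

set_option autoImplicit false

/-! Project GB (helper68): from `S_GLU`, `S_ENU` to the theorem. -/

namespace Pool.Agent.H68.GB

open MeasureTheory Filter Topology Set Pool.Agent.H49.BP

/-- the main function and the logarithmic integral -/
theorem MM_li {x : ℝ} (hx : 2 ≤ x) : |MM x - ∫ u in (2 : ℝ)..x, (Real.log u)⁻¹| ≤ MM 2 + 4 * √x := by
  have hx0 : 0 < x := by linarith
  have hsx : 1 ≤ √x := Real.one_le_sqrt.2 (by linarith)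
  have hli : IntervalIntegrable (fun u : ℝ => (Real.log u)⁻¹) volume 2 x := by
    refine ContinuousOn.intervalIntegrable ?_
    rw [uIcc_of_le hx]
    intro u hu
    have hu1 : 1 < u := by linarith [hu.1]
    exact ((Real.continuousAt_log (by linarith)).inv₀ (log_pos' hu1).ne').continuousWithinAt
  have hui : IntervalIntegrable (fun u : ℝ => u⁻¹) volume 2 x := by
    refine ContinuousOn.intervalIntegrable ?_
    rw [uIcc_of_le hx]
    intro u hu
    exact (continuousAt_inv₀ (by linarith [hu.1])).continuousWithinAt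
  have h7 : MM x = MM 2 + ∫ u in (2 : ℝ)..x, md u := by
    rw [← MM_sub (by norm_num) (by linarith)]
    ring
  have h8 : (∫ u in (2 : ℝ)..x, md u) - ∫ u in (2 : ℝ)..x, (Real.log u)⁻¹ =
      ∫ u in (2 : ℝ)..x, (md u - (Real.log u)⁻¹) :=
    (intervalIntegral.integral_sub (md_int (by norm_num) (by linarith)) hli).symm
  have h9 : |∫ u in (2 : ℝ)..x, (md u - (Real.log u)⁻¹)| ≤ ∫ u in (2 : ℝ)..x, 2 * u⁻¹ := by
    rw [← Real.norm_eq_abs]
    refine intervalIntegral.norm_integral_le_of_norm_le hx (Eventually.of_forall fun u hu => ?_) (hui.const_mul 2)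
    have hu2 : 2 ≤ u := hu.1.le
    have hl : 0 < Real.log u := log_pos' (by linarith)
    have hl2 : 1 / 2 ≤ Real.log u := by
      have h10 := Real.log_le_log (by norm_num) hu2
      have h11 := Real.log_two_gt_d9
      linarith
    have e : md u - (Real.log u)⁻¹ = -(u⁻¹ * (Real.log u)⁻¹) := by
      unfold md
      field_simp
      ring
    rw [e, norm_neg, norm_mul, norm_inv, norm_inv, Real.norm_of_nonneg (by linarith), Real.norm_of_nonneg hl.le,
      mul_comm]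
    refine mul_le_mul_of_nonneg_right ?_ (by positivity)
    rw [inv_le_comm₀ hl (by norm_num)]
    linarith
  have h12 : ∫ u in (2 : ℝ)..x, 2 * u⁻¹ = 2 * Real.log (x / 2) := by
    rw [intervalIntegral.integral_const_mul, integral_inv_of_pos (by norm_num) hx0]
  have h13 : Real.log (x / 2) ≤ 2 * √x := by
    have h14 : Real.log (x / 2) ≤ Real.log x := Real.log_le_log (by positivity) (by linarith)
    have h15 : Real.log x = 2 * Real.log (√x) := by
      rw [Real.log_sqrt hx0.le]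
      ring
    have h16 := Real.log_le_sub_one_of_pos (x := √x) (by linarith)
    linarith
  have h17 : 0 ≤ MM 2 := MM_nonneg (by norm_num)
  have h18 : MM x - ∫ u in (2 : ℝ)..x, (Real.log u)⁻¹ = MM 2 + ∫ u in (2 : ℝ)..x, (md u - (Real.log u)⁻¹) := by
    rw [← h8, h7]
    ring
  rw [h18]
  have h19 := abs_add_le (MM 2) (∫ u in (2 : ℝ)..x, (md u - (Real.log u)⁻¹))
  rw [abs_of_nonneg h17] at h19
  linarith

/-- the prime number theorem with the error term of the Riemann hypothesis -/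
theorem pnt_of {q : ℕ → ℝ} (hD : Disc q) : ∀ ε : ℝ, 0 < ε → ∃ C : ℝ, ∀ x : ℝ, 2 ≤ x →
    |(pc q x : ℝ) - ∫ u in (2 : ℝ)..x, (Real.log u)⁻¹| ≤ C * x ^ (1 / 2 + ε) := by
  intro ε hε
  obtain ⟨C, hC0, hC⟩ := hD ε hε
  have h17 : 0 ≤ MM 2 := MM_nonneg (by norm_num)
  refine ⟨C * √(Real.log (|((0 : ℤ) : ℝ)| + 3)) + (MM 2 + 4), fun x hx => ?_⟩
  have hx1 : 1 ≤ x := by linarith
  have hx0 : 0 < x := by linarith
  have h1 := hC 0 x hx1
  have em0 : ∀ u : ℝ, em 0 u = 1 := by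
    intro u
    unfold Pool.Agent.H49.BP.em
    simp
  have e1 : AA q 0 x = ((pc q x : ℝ) : ℂ) := by
    unfold AA
    simp [em0]
  have e2 : BB 0 x = ((MM x : ℝ) : ℂ) := by
    unfold BB MM
    rw [← intervalIntegral.integral_ofReal]
    refine intervalIntegral.integral_congr fun u _ => ?_
    simp [em0]
  rw [e1, e2, ← Complex.ofReal_sub, Complex.norm_real, Real.norm_eq_abs] at h1
  have h2 := MM_li hx
  have h3 : √x ≤ x ^ (1 / 2 + ε) := by
    rw [Real.sqrt_eq_rpow]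
    exact Real.rpow_le_rpow_of_exponent_le hx1 (by linarith)
  have h4 : 1 ≤ x ^ (1 / 2 + ε) := Real.one_le_rpow hx1 (by linarith)
  have h5 : MM 2 ≤ MM 2 * x ^ (1 / 2 + ε) := le_mul_of_one_le_right h17 h4
  have e : (pc q x : ℝ) - ∫ u in (2 : ℝ)..x, (Real.log u)⁻¹ =
      ((pc q x : ℝ) - MM x) + (MM x - ∫ u in (2 : ℝ)..x, (Real.log u)⁻¹) := by ring
  rw [e]
  refine (abs_add_le _ _).trans ?_
  have e3 : (C * √(Real.log (|((0 : ℤ) : ℝ)| + 3)) + (MM 2 + 4)) * x ^ (1 / 2 + ε) =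
      C * x ^ (1 / 2 + ε) * √(Real.log (|((0 : ℤ) : ℝ)| + 3)) + (MM 2 * x ^ (1 / 2 + ε) + 4 * x ^ (1 / 2 + ε)) := by ring
  rw [e3]
  linarith

/-- the sequences of the theorem -/
theorem main (glu : S_GLU) (enu : S_ENU) {h : ℝ → ℝ}
    (hh : ∀ ε : ℝ, 0 < ε → ∃ C : ℝ, ∀ x : ℝ, 1 ≤ x → h x ≤ C * x ^ ε) :
    ∃ q : ℕ → ℝ, StrictMono q ∧ (∀ j : ℕ, (j : ℝ) + 1 ≤ q j) ∧ 1 < q 0 ∧ Disc q ∧
      ∀ Y : ℝ, ∃ y : ℝ, Y ≤ y ∧ ∀ i j : ℕ, q i + q j < y ∨ y + h y < q i + q j := by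
  obtain ⟨c, θ, hS, hy⟩ := glu h hh
  obtain ⟨q, h1, h2, h3, h4, h5⟩ := enu c θ hS
  refine ⟨q, h1, h2, h3, h5, fun Y => ?_⟩
  obtain ⟨y, hY, hy⟩ := hy Y
  refine ⟨y, hY, fun i j => ?_⟩
  obtain ⟨n, a, ha, hqi⟩ := h4 i
  obtain ⟨n', a', ha', hqj⟩ := h4 j
  rw [hqi, hqj]
  exact hy n a n' a' ha ha'

end Pool.Agent.H68.GB
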