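import Pool.Agent.H68.GB.Stm

set_option autoImplicit false

/-! Project GB (helper68), module GEO: the geometry of one scale. -/

namespace Pool.Agent.H68.GB

open MeasureTheory Filter Topology Set Pool.Agent.H49.BP

/-- between the beginning of a slot and a point of the slot -/
theorem floor_slot {x : ℝ} (hx : 1 ≤ x) (h1 : 1 ≤ ⌊MM x⌋₊) :
    tt ⌊MM x⌋₊ ≤ x ∧ x - tt ⌊MM x⌋₊ ≤ 2 * Real.log x := by
  have h0 : tt ⌊MM x⌋₊ ≤ x := by
    rw [← MM_le_iff (tt_one_le _) hx, MM_tt]
    exact Nat.floor_le (MM_nonneg hx)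
  refine ⟨h0, ?_⟩
  have h2 := le_MM_inc (tt_two h1) h0
  rw [MM_tt] at h2
  have h3 : MM x < ⌊MM x⌋₊ + 1 := Nat.lt_floor_add_one _
  have h4 : 1 < x := by linarith [tt_two h1]
  have h5 := log_pos' h4
  rw [div_le_iff₀ (by positivity)] at h2
  have h6 : (MM x - ⌊MM x⌋₊) * (2 * Real.log x) ≤ 1 * (2 * Real.log x) :=
    mul_le_mul_of_nonneg_right (by linarith) (by positivity)
  linarith

/-- lengths and masses -/
theorem len_le {a b m : ℝ} (ha : 2 ≤ a) (hab : a ≤ b) (h : MM b - MM a ≤ m) : b - a ≤ m * (2 * Real.log b) := by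
  have h2 := le_MM_inc ha hab
  have h5 := log_pos' (u := b) (by linarith)
  rw [div_le_iff₀ (by positivity)] at h2
  have h6 : (MM b - MM a) * (2 * Real.log b) ≤ m * (2 * Real.log b) :=
    mul_le_mul_of_nonneg_right h (by positivity)
  linarith

theorem t_GEO : S_GEO := by
  refine ⟨800, 100, by norm_num, by norm_num, fun A H hA hH hHP => ?_⟩
  set P := tt A with hP
  have hAr : (100 : ℝ) ≤ A := by exact_mod_cast hA
  have hPA : (A : ℝ) + 1 ≤ P := tt_ge A
  have hP100 : 101 ≤ P := by linarith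
  set y : ℝ := P ^ 4 with hy
  have hy0 : 0 < y := by positivity
  have hP2 : 101 * P ≤ P ^ 2 := by nlinarith
  have hP3 : 101 * P ^ 2 ≤ P ^ 3 := by nlinarith [sq_nonneg P]
  have hP4 : 101 * P ^ 3 ≤ P ^ 4 := by
    have : 0 ≤ P ^ 3 := by positivity
    nlinarith
  have hP3' : 10201 * P ≤ P ^ 3 := by linarith
  have hyP : 1000000 * P ≤ y := by rw [hy]; linarith
  -- logarithms
  set lam := Real.log P with hlam
  have hlam1 : 1 ≤ lam := by
    rw [hlam, Real.le_log_iff_exp_le (by linarith)]
    have := Real.exp_one_lt_d9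
    linarith
  have hlamP : lam ≤ P := by
    have := Real.log_le_sub_one_of_pos (x := P) (by linarith)
    linarith
  set ell := Real.log (2 * y) with hell
  have hell1 : ell ≤ 5 * lam := by
    rw [hell, hy, Real.log_mul (by norm_num) (by positivity), Real.log_pow]
    have := Real.log_two_lt_d9
    push_cast
    linarith
  have hell2 : 1 ≤ ell := by
    rw [hell, hy, Real.log_mul (by norm_num) (by positivity), Real.log_pow]
    have := Real.log_two_gt_d9
    push_cast
    linarith
  have hlogle : ∀ x : ℝ, 0 < x → x ≤ 2 * y → Real.log x ≤ ell := fun x h1 h2 => Real.log_le_log h1 h2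
  -- the window
  set W : ℕ := ⌈H + 2 * ell⌉₊ + 1 with hW
  have hW1 : H + 2 * ell + 1 ≤ W := by
    rw [hW]
    push_cast
    linarith [Nat.le_ceil (H + 2 * ell)]
  have hW2 : (W : ℝ) ≤ H + 2 * ell + 2 := by
    rw [hW]
    push_cast
    linarith [Nat.ceil_lt_add_one (show 0 ≤ H + 2 * ell by linarith)]
  have hW0 : 1 ≤ W := by omega
  have hWr : (1 : ℝ) ≤ W := by exact_mod_cast hW0
  set z : ℝ := y / 2 - H - 4 * ell with hz
  have hzP : P ≤ z := by rw [hz]; linarith
  have hz1 : 1 ≤ z := by linarith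
  have hzy : z ≤ y / 2 := by rw [hz]; linarith
  have hMz : (A : ℝ) ≤ MM z := by
    have h1 := MM_le (tt_one_le A) hzP
    rwa [MM_tt] at h1
  set K : ℕ := ⌊(MM z - A) / W⌋₊ with hK
  have hK1 : (K : ℝ) * W ≤ MM z - A := by
    have h1 : (K : ℝ) ≤ (MM z - A) / W := Nat.floor_le (by
      apply div_nonneg <;> linarith)
    rwa [le_div_iff₀ (by linarith)] at h1
  have hK2 : MM z - A < ((K : ℝ) + 1) * W := by
    have h1 : (MM z - A) / W < K + 1 := Nat.lt_floor_add_one _
    rwa [div_lt_iff₀ (by linarith)] at h1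
  set t : ℕ → ℝ := fun k => tt (A + min k K * W) with ht
  have ht2 : ∀ k, 2 ≤ t k := fun k => tt_two (by omega)
  have htP : ∀ k, P ≤ t k := fun k => tt_mono.monotone (by omega)
  have hMt : ∀ k, MM (t k) = A + (min k K : ℕ) * W := by
    intro k
    simp only [ht]
    rw [MM_tt]
    push_cast
    ring
  have htz : ∀ k, t k ≤ z := by
    intro k
    rw [← MM_le_iff (by linarith [ht2 k]) hz1, hMt]
    have h1 : ((min k K : ℕ) : ℝ) ≤ K := by exact_mod_cast min_le_right k K
    have h2 : ((min k K : ℕ) : ℝ) * W ≤ K * W := mul_le_mul_of_nonneg_right h1 (by linarith)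
    linarith
  have htm : ∀ j k, j ≤ k → t j ≤ t k := by
    intro j k h
    refine tt_mono.monotone ?_
    have h1 : min j K ≤ min k K := min_le_min_right K h
    have h2 := Nat.mul_le_mul_right W h1
    omega
  have hyt : ∀ k, y / 2 ≤ y - t k := fun k => by linarith [htz k]
  have hyt1 : ∀ k, 1 ≤ y - t k := fun k => by linarith [hyt k]
  set b : ℕ → ℕ := fun k => ⌊MM (y - t k)⌋₊ with hb
  have hMy : ∀ k, MM z ≤ MM (y - t k) := fun k => MM_le hz1 (by linarith [hyt k])
  have hb1 : ∀ k, 1 ≤ b k := by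
    intro k
    simp only [hb]
    refine Nat.le_floor ?_
    push_cast
    linarith [hMy k]
  have hbr : ∀ k, (b k : ℝ) ≤ MM (y - t k) := fun k => Nat.floor_le (MM_nonneg (hyt1 k))
  have hbr' : ∀ k, MM (y - t k) < b k + 1 := fun k => Nat.lt_floor_add_one _
  have hbt : ∀ k, tt (b k) ≤ y - t k ∧ y - t k - tt (b k) ≤ 2 * ell := by
    intro k
    obtain ⟨h1, h2⟩ := floor_slot (hyt1 k) (hb1 k)
    refine ⟨h1, h2.trans ?_⟩
    have := hlogle (y - t k) (by linarith [hyt1 k]) (by linarith [ht2 k])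
    linarith
  set B : ℕ := ⌈1 + 2 * H + 8 * ell + 4 * W * ell⌉₊ with hB
  have hB1 : 1 + 2 * H + 8 * ell + 4 * W * ell ≤ B := Nat.le_ceil _
  have hB0 : 0 ≤ 1 + 2 * H + 8 * ell + 4 * W * ell := by positivity
  have hB2 : (B : ℝ) < 1 + 2 * H + 8 * ell + 4 * W * ell + 1 := Nat.ceil_lt_add_one hB0
  have hWell : (W : ℝ) ≤ W * ell := le_mul_of_one_le_right (by linarith) hell2
  set e : ℕ := ⌈MM (y + H)⌉₊ + 1 with he
  have he1 : MM (y + H) + 1 ≤ e := by
    rw [he]
    push_cast
    linarith [Nat.le_ceil (MM (y + H))]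
  have he2 : (e : ℝ) < MM (y + H) + 2 := by
    rw [he]
    push_cast
    linarith [Nat.ceil_lt_add_one (MM_nonneg (x := y + H) (by linarith))]
  have ht0 : t 0 = P := by
    simp only [ht]
    simp [hP]
  have htK : t K = tt (A + K * W) := by
    simp only [ht, min_self]
  have hbanti : Antitone b := by
    intro j k h
    exact Nat.floor_mono (MM_le (hyt1 k) (by linarith [htm j k h]))
  have hbK : P ^ 2 ≤ b K := by
    have h1 := hbr' K
    have h2 : MM (y / 2) ≤ MM (y - t K) := MM_le (by linarith) (hyt K)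
    have h3 := le_MM_inc (a := 2) (b := y / 2) le_rfl (by linarith)
    have h4 := MM_nonneg (x := 2) (by norm_num)
    have h5 : Real.log (y / 2) ≤ ell := hlogle _ (by linarith) (by linarith)
    have h6 : 0 < Real.log (y / 2) := log_pos' (by linarith)
    rw [div_le_iff₀ (by positivity)] at h3
    have h7 : (MM (y / 2) - MM 2) * (2 * Real.log (y / 2)) ≤ MM (y / 2) * (2 * ell) := by
      have h8 : 0 ≤ MM (y / 2) := MM_nonneg (by linarith)
      calc (MM (y / 2) - MM 2) * (2 * Real.log (y / 2)) ≤ MM (y / 2) * (2 * Real.log (y / 2)) :=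
            mul_le_mul_of_nonneg_right (by linarith) (by positivity)
        _ ≤ MM (y / 2) * (2 * ell) := mul_le_mul_of_nonneg_left (by linarith) h8
    have h9 : (P ^ 2 + 1) * (2 * ell) ≤ y / 2 - 2 := by
      have h10 : ell ≤ 5 * P := by linarith
      have h11 : (P ^ 2 + 1) * (2 * ell) ≤ (P ^ 2 + 1) * (2 * (5 * P)) :=
        mul_le_mul_of_nonneg_left (by linarith) (by positivity)
      have h12 : (P ^ 2 + 1) * (2 * (5 * P)) = 10 * P ^ 3 + 10 * P := by ring
      rw [hy]
      linarith
    have h13 : (P ^ 2 + 1) * (2 * ell) ≤ MM (y / 2) * (2 * ell) := by linarith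
    have h14 := le_of_mul_le_mul_right h13 (by linarith : 0 < 2 * ell)
    linarith
  have hb0K : (b K : ℝ) ≤ b 0 := by exact_mod_cast hbanti (Nat.zero_le K)
  have hb0e : b 0 ≤ e := by
    have h1 := hbr 0
    have h2 := MM_le (hyt1 0) (show y - t 0 ≤ y + H by linarith [ht2 0])
    have h3 : (b 0 : ℝ) ≤ e := by linarith
    exact_mod_cast h3
  refine ⟨W, K, B, e, b, hW0, ?_, ?_, hbanti, ?_, ?_, ?_, hbK, hb0e, ?_, ?_, ?_, ?_, ?_, ?_, ?_⟩
  · have h1 : (W : ℝ) ≤ B := by
      have : (0 : ℝ) ≤ W * ell := by positivity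
      linarith
    exact_mod_cast h1
  · -- the size of `B`
    have hH1 : 1 ≤ H + 1 := by linarith
    have h1 : (W : ℝ) * ell ≤ (H + 2 * ell + 2) * ell := mul_le_mul_of_nonneg_right hW2 (by linarith)
    have h2 : (B : ℝ) ≤ 2 + 2 * H + 8 * ell + 4 * ((H + 2 * ell + 2) * ell) := by
      have e1 : 4 * (W : ℝ) * ell = 4 * (W * ell) := by ring
      linarith
    have h3 : 2 + 2 * H + 8 * ell + 4 * ((H + 2 * ell + 2) * ell) ≤ 32 * (H + 1) * ell ^ 2 := by
      have h4 : ell ≤ ell ^ 2 := by nlinarith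
      have h5 : 0 ≤ H * ell := by positivity
      have h6 : H ≤ H * ell ^ 2 := by
        have : (1 : ℝ) ≤ ell ^ 2 := by nlinarith
        exact le_mul_of_one_le_right hH this
      have h7 : H * ell ≤ H * ell ^ 2 := mul_le_mul_of_nonneg_left h4 hH
      nlinarith
    have h8 : ell ^ 2 ≤ 25 * lam ^ 2 := by nlinarith
    calc (B : ℝ) ≤ 32 * (H + 1) * ell ^ 2 := h2.trans h3
      _ ≤ 32 * (H + 1) * (25 * lam ^ 2) := mul_le_mul_of_nonneg_left h8 (by linarith)
      _ = 800 * (H + 1) * lam ^ 2 := by ring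
  · -- the number of cells of a right window
    intro k
    rcases Nat.lt_or_ge k K with hk | hk
    · have h1 := hbr k
      have h2 := hbr' (k + 1)
      have h3 := MM_sub_le (hyt1 (k + 1)) (show y - t (k + 1) ≤ y - t k by linarith [htm k (k + 1) (Nat.le_succ k)])
      have h4 : t (k + 1) - t k ≤ W * (2 * Real.log (t (k + 1))) := by
        refine len_le (ht2 k) (htm k (k + 1) (Nat.le_succ k)) ?_
        rw [hMt, hMt, min_eq_left hk.le, min_eq_left (by omega : k + 1 ≤ K)]
        push_cast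
        linarith
      have h5 : Real.log (t (k + 1)) ≤ ell := hlogle _ (by linarith [ht2 (k + 1)]) (by linarith [htz (k + 1)])
      have h6 : (W : ℝ) * (2 * Real.log (t (k + 1))) ≤ W * (2 * ell) :=
        mul_le_mul_of_nonneg_left (by linarith) (by linarith)
      have h7 : (b k : ℝ) ≤ b (k + 1) + B := by
        have : 0 ≤ (W : ℝ) * ell := by positivity
        linarith
      exact_mod_cast h7
    · have h1 : t (k + 1) = t k := by
        simp only [ht]
        rw [min_eq_right hk, min_eq_right (by omega : K ≤ k + 1)]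
      have h2 : b (k + 1) = b k := by
        simp only [hb]
        rw [h1]
      omega
  · -- the middle
    simp only [hb]
    refine Nat.le_floor ?_
    push_cast
    linarith [hMy K]
  · have h1 := hbr K
    have h2 := MM_sub_le (a := t K) (b := y - t K) (by linarith [ht2 K]) (by linarith [htz K])
    have h3 : z - t K ≤ W * (2 * Real.log z) := by
      refine len_le (ht2 K) (htz K) ?_
      rw [hMt, min_self]
      linarith
    have h4 : Real.log z ≤ ell := hlogle _ (by linarith) (by linarith)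
    have h5 : (W : ℝ) * (2 * Real.log z) ≤ W * (2 * ell) := mul_le_mul_of_nonneg_left (by linarith) (by linarith)
    rw [hMt, min_self] at h2
    have h6 : (b K : ℝ) ≤ A + K * W + B := by
      have e1 : y - 2 * z = 2 * H + 8 * ell := by rw [hz]; ring
      linarith
    exact_mod_cast h6
  · have h1 := hbr' 0
    have h2 := MM_sub_le (hyt1 0) (show y - t 0 ≤ y + H by linarith [ht2 0])
    rw [ht0] at h1 h2
    linarith
  · have h1 : (2 * A : ℝ) ≤ e := by
      have h2 : (b 0 : ℝ) ≤ e := by exact_mod_cast hb0e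
      nlinarith
    exact_mod_cast h1
  · rw [← MM_lt_iff (by linarith) (tt_one_le _), MM_tt]
    linarith
  · rw [← htK]
    linarith [htz K]
  · have h1 := (hbt K).2
    have h2 := htz K
    have e1 : y - 2 * z = 2 * H + 8 * ell := by rw [hz]; ring
    linarith
  · intro k hk
    have h1 := (hbt k).1
    have e1 : t k = tt (A + k * W) := by
      simp only [ht]
      rw [min_eq_left hk]
    rw [← e1]
    linarith
  · intro k hk
    have h1 := (hbt k).2
    have e1 : t k = tt (A + k * W) := by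
      simp only [ht]
      rw [min_eq_left hk]
    have h2 := tt_diff_ge (i := A + k * W) (j := A + (k + 1) * W) (by nlinarith)
    push_cast at h2
    rw [← e1] at h2
    linarith

end Pool.Agent.H68.GB
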