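import Pool.Agent.H68.GB.Stm

set_option autoImplicit false

/-! Project GB (helper68), module GLU (helper58): the scales are put together. -/

namespace Pool.Agent.H68.GB

open MeasureTheory Filter Topology Set Pool.Agent.H49.BP

theorem glu_LL (m : ℤ) : 1 ≤ LL m := by
  unfold LL
  rw [Real.one_le_sqrt]
  exact L_ge m

theorem glu_pt_ge (inv : S_INV) {c : ℕ} {θ : ℝ} (n : ℕ) {i : ℕ} (h0 : 0 ≤ θ) : tt n ≤ pt c θ n i := by
  obtain ⟨-, -, h3, -, h5, -⟩ := inv
  rw [← h3 n]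
  unfold pt
  apply h5
  have : (0 : ℝ) ≤ (θ + i) / c := by positivity
  linarith

theorem glu_pt_lt (inv : S_INV) {c : ℕ} {θ : ℝ} (n : ℕ) {i : ℕ} (hi : i < c) (h0 : 0 ≤ θ) (h1 : θ < 1) :
    pt c θ n i < tt (n + 1) := by
  obtain ⟨-, -, h3, h4, -⟩ := inv
  rw [← h3 (n + 1)]
  unfold pt
  have hc : (0 : ℝ) < c := by
    have : 0 < c := by omega
    exact_mod_cast this
  have h5 : (0 : ℝ) ≤ (θ + i) / c := by positivity
  have h6 : (θ + i) / c < 1 := by
    rw [div_lt_one hc]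
    have : (i : ℝ) + 1 ≤ c := by exact_mod_cast hi
    linarith
  have hn : (0 : ℝ) ≤ n := Nat.cast_nonneg n
  apply h4
  · show (0 : ℝ) ≤ _
    linarith
  · show (0 : ℝ) ≤ _
    positivity
  · push_cast
    linarith

/-- the discrepancy bound, from the bound of one scale -/
theorem glu_disc (a : ℕ → ℕ) (T : ℤ → ℕ → ℂ) (s C4 : ℝ) (hs : 1 / 2 ≤ s) (hC4 : 0 ≤ C4) (ha1 : 1 ≤ a 0)
    (ha : ∀ i, 2 * a i ≤ a (i + 1)) (hex : ∀ n, a 0 ≤ n → ∃ i, a i ≤ n ∧ n < a (i + 1))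
    (hT1 : ∀ m n, n < a 0 → ‖T m n‖ ≤ 1)
    (hT2 : ∀ i m n, a i ≤ n → n ≤ a (i + 1) → ‖∑ n' ∈ Finset.Ico (a i) n, T m n'‖ ≤ C4 * (n : ℝ) ^ s * LL m) :
    ∃ C : ℝ, 0 ≤ C ∧ ∀ (m : ℤ) (n : ℕ), ‖∑ n' ∈ Finset.range n, T m n'‖ ≤ C * (n : ℝ) ^ s * LL m := by
  set K : ℝ := 4 * C4 + a 0 with hK
  have hK0 : 0 ≤ K := by positivity
  have hpos : ∀ i, 1 ≤ a i := by
    intro i
    induction i with
    | zero => exact ha1
    | succ i ih =>
      have := ha i
      omega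
  have hsmall : ∀ (m : ℤ) (n : ℕ), n ≤ a 0 → ‖∑ n' ∈ Finset.range n, T m n'‖ ≤ (a 0 : ℝ) * (n : ℝ) ^ s * LL m := by
    intro m n hn
    rcases Nat.eq_zero_or_pos n with h0 | h0
    · subst h0
      simp only [Finset.range_zero, Finset.sum_empty, norm_zero]
      have := glu_LL m
      positivity
    · have h1 : ‖∑ n' ∈ Finset.range n, T m n'‖ ≤ ∑ n' ∈ Finset.range n, (1 : ℝ) := by
        refine (norm_sum_le _ _).trans (Finset.sum_le_sum ?_)
        intro n' hn'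
        apply hT1
        have := Finset.mem_range.1 hn'
        omega
      have h2 : ∑ n' ∈ Finset.range n, (1 : ℝ) = n := by simp
      have h3 : (n : ℝ) ≤ a 0 := by exact_mod_cast hn
      have h4 : (1 : ℝ) ≤ (n : ℝ) ^ s := by
        apply Real.one_le_rpow
        · exact_mod_cast h0
        · linarith
      have h5 := glu_LL m
      have h6 : (0 : ℝ) ≤ a 0 := Nat.cast_nonneg _
      calc ‖∑ n' ∈ Finset.range n, T m n'‖ ≤ n := by rw [← h2]; exact h1
        _ ≤ (a 0 : ℝ) * 1 * 1 := by linarith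
        _ ≤ (a 0 : ℝ) * (n : ℝ) ^ s * LL m := by gcongr
  have hP : ∀ (i : ℕ) (m : ℤ), ‖∑ n' ∈ Finset.range (a i), T m n'‖ ≤ K * (a i : ℝ) ^ s * LL m := by
    intro i
    induction i with
    | zero =>
      intro m
      refine (hsmall m (a 0) le_rfl).trans ?_
      have h5 := glu_LL m
      have h6 : (0 : ℝ) ≤ (a 0 : ℝ) ^ s := by positivity
      gcongr
      linarith
    | succ i ih =>
      intro m
      have h1 := ih m
      have hle : a i ≤ a (i + 1) := by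
        have := ha i
        omega
      have h2 := hT2 i m (a (i + 1)) hle le_rfl
      have h3 : ∑ n' ∈ Finset.range (a (i + 1)), T m n' =
          ∑ n' ∈ Finset.range (a i), T m n' + ∑ n' ∈ Finset.Ico (a i) (a (i + 1)), T m n' :=
        (Finset.sum_range_add_sum_Ico _ hle).symm
      have h5 := glu_LL m
      have h6 : (a i : ℝ) ^ s ≤ 3 / 4 * (a (i + 1) : ℝ) ^ s := by
        have e1 : (a i : ℝ) ≤ 1 / 2 * (a (i + 1) : ℝ) := by
          have : (2 : ℝ) * a i ≤ a (i + 1) := by exact_mod_cast ha i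
          linarith
        have e2 : (a i : ℝ) ^ s ≤ (1 / 2 * (a (i + 1) : ℝ)) ^ s :=
          Real.rpow_le_rpow (Nat.cast_nonneg _) e1 (by linarith)
        rw [Real.mul_rpow (by norm_num) (Nat.cast_nonneg _)] at e2
        have e3 : ((1 / 2 : ℝ)) ^ s ≤ 3 / 4 := by
          have f1 : ((1 / 2 : ℝ)) ^ s ≤ (1 / 2 : ℝ) ^ (1 / 2 : ℝ) :=
            Real.rpow_le_rpow_of_exponent_ge (by norm_num) (by norm_num) hs
          have f2 : (1 / 2 : ℝ) ^ (1 / 2 : ℝ) ≤ 3 / 4 := by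
            rw [← Real.sqrt_eq_rpow]
            rw [Real.sqrt_le_left (by norm_num)]
            norm_num
          linarith
        have e4 : (0 : ℝ) ≤ (a (i + 1) : ℝ) ^ s := by positivity
        nlinarith
      rw [h3]
      have h7 : (0 : ℝ) ≤ (a (i + 1) : ℝ) ^ s := by positivity
      calc _ ≤ ‖∑ n' ∈ Finset.range (a i), T m n'‖ + ‖∑ n' ∈ Finset.Ico (a i) (a (i + 1)), T m n'‖ := norm_add_le _ _
        _ ≤ K * (a i : ℝ) ^ s * LL m + C4 * (a (i + 1) : ℝ) ^ s * LL m := add_le_add h1 h2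
        _ ≤ K * (3 / 4 * (a (i + 1) : ℝ) ^ s) * LL m + C4 * (a (i + 1) : ℝ) ^ s * LL m := by gcongr
        _ = (3 / 4 * K + C4) * ((a (i + 1) : ℝ) ^ s * LL m) := by ring
        _ ≤ K * ((a (i + 1) : ℝ) ^ s * LL m) := by
            apply mul_le_mul_of_nonneg_right
            · have : (0 : ℝ) ≤ a 0 := Nat.cast_nonneg _
              rw [hK]
              linarith
            · positivity
        _ = _ := by ring
  refine ⟨K + C4, by positivity, ?_⟩
  intro m n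
  have h5 := glu_LL m
  have h7 : (0 : ℝ) ≤ (n : ℝ) ^ s := by positivity
  rcases le_or_gt n (a 0) with hn | hn
  · refine (hsmall m n hn).trans ?_
    gcongr
    linarith
  · obtain ⟨i, hi1, hi2⟩ := hex n hn.le
    have h3 : ∑ n' ∈ Finset.range n, T m n' =
        ∑ n' ∈ Finset.range (a i), T m n' + ∑ n' ∈ Finset.Ico (a i) n, T m n' :=
      (Finset.sum_range_add_sum_Ico _ hi1).symm
    have h8 : (a i : ℝ) ^ s ≤ (n : ℝ) ^ s :=
      Real.rpow_le_rpow (Nat.cast_nonneg _) (by exact_mod_cast hi1) (by linarith)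
    rw [h3]
    calc _ ≤ ‖∑ n' ∈ Finset.range (a i), T m n'‖ + ‖∑ n' ∈ Finset.Ico (a i) n, T m n'‖ := norm_add_le _ _
      _ ≤ K * (a i : ℝ) ^ s * LL m + C4 * (n : ℝ) ^ s * LL m := add_le_add (hP i m) (hT2 i m n hi1 hi2.le)
      _ ≤ K * (n : ℝ) ^ s * LL m + C4 * (n : ℝ) ^ s * LL m := by gcongr
      _ = _ := by ring

/-- `H + 1` and the logarithms are small -/
theorem glu_small (h : ℝ → ℝ) (hh : ∀ ε : ℝ, 0 < ε → ∃ C : ℝ, ∀ x : ℝ, 1 ≤ x → h x ≤ C * x ^ ε) (δ : ℝ) (hδ : 0 < δ) :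
    ∃ C5 : ℝ, 0 ≤ C5 ∧ ∀ A : ℕ, 1 ≤ A → tt A ≤ (A : ℝ) ^ 2 →
      (max (h (tt A ^ 4)) 0 + 1) * Real.log (tt A) ^ 2 ≤ C5 * (A : ℝ) ^ (δ / 2) := by
  obtain ⟨C, hC⟩ := hh (δ / 32) (by positivity)
  refine ⟨(|C| + 1) * (4 * (8 / δ) ^ 2), by positivity, ?_⟩
  intro A hA hA2
  have hA1 : (1 : ℝ) ≤ A := by exact_mod_cast hA
  have hA0 : (0 : ℝ) < A := by linarith
  have ht1 := tt_one_le A
  have ht0 : 0 < tt A := by linarith
  have h1 : max (h (tt A ^ 4)) 0 + 1 ≤ (|C| + 1) * (A : ℝ) ^ (δ / 4) := by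
    have e0 : (1 : ℝ) ≤ (A : ℝ) ^ (δ / 4) := Real.one_le_rpow hA1 (by positivity)
    have e1 : h (tt A ^ 4) ≤ |C| * (A : ℝ) ^ (δ / 4) := by
      have f1 := hC (tt A ^ 4) (one_le_pow₀ ht1)
      have f2 : (tt A ^ 4) ^ (δ / 32) ≤ (A : ℝ) ^ (δ / 4) := by
        have g1 : (tt A ^ 4) ^ (δ / 32) ≤ (((A : ℝ) ^ 2) ^ 4) ^ (δ / 32) := by
          apply Real.rpow_le_rpow (by positivity) _ (by positivity)
          gcongr
        refine g1.trans (le_of_eq ?_)
        rw [← pow_mul, ← Real.rpow_natCast, ← Real.rpow_mul hA0.le]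
        congr 1
        push_cast
        ring
      calc h (tt A ^ 4) ≤ C * (tt A ^ 4) ^ (δ / 32) := f1
        _ ≤ |C| * (tt A ^ 4) ^ (δ / 32) := by
            apply mul_le_mul_of_nonneg_right (le_abs_self C)
            positivity
        _ ≤ |C| * (A : ℝ) ^ (δ / 4) := by gcongr
    have e2 : (0 : ℝ) ≤ |C| * (A : ℝ) ^ (δ / 4) := by positivity
    have e3 : max (h (tt A ^ 4)) 0 ≤ |C| * (A : ℝ) ^ (δ / 4) := max_le e1 e2
    nlinarith
  have h2 : Real.log (tt A) ^ 2 ≤ 4 * (8 / δ) ^ 2 * (A : ℝ) ^ (δ / 4) := by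
    have e1 : Real.log (tt A) ≤ 2 * Real.log A := by
      have := Real.log_le_log ht0 hA2
      rw [Real.log_pow] at this
      exact_mod_cast this
    have e2 : Real.log A ≤ (A : ℝ) ^ (δ / 8) / (δ / 8) := Real.log_le_rpow_div hA0.le (by positivity)
    have e3 : (0 : ℝ) ≤ Real.log (tt A) := Real.log_nonneg ht1
    have e4 : Real.log (tt A) ≤ 2 * ((A : ℝ) ^ (δ / 8) / (δ / 8)) := by linarith
    have e5 : ((A : ℝ) ^ (δ / 8)) ^ 2 = (A : ℝ) ^ (δ / 4) := by
      rw [← Real.rpow_natCast, ← Real.rpow_mul hA0.le]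
      congr 1
      push_cast
      ring
    calc Real.log (tt A) ^ 2 ≤ (2 * ((A : ℝ) ^ (δ / 8) / (δ / 8))) ^ 2 := by gcongr
      _ = 4 * (8 / δ) ^ 2 * ((A : ℝ) ^ (δ / 8)) ^ 2 := by
          field_simp
          norm_num
      _ = _ := by rw [e5]
  have h3 : (0 : ℝ) ≤ max (h (tt A ^ 4)) 0 := le_max_right _ _
  calc (max (h (tt A ^ 4)) 0 + 1) * Real.log (tt A) ^ 2
      ≤ ((|C| + 1) * (A : ℝ) ^ (δ / 4)) * (4 * (8 / δ) ^ 2 * (A : ℝ) ^ (δ / 4)) := by
        apply mul_le_mul h1 h2 (by positivity) (by positivity)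
    _ = (|C| + 1) * (4 * (8 / δ) ^ 2) * ((A : ℝ) ^ (δ / 4) * (A : ℝ) ^ (δ / 4)) := by ring
    _ = _ := by
        rw [← Real.rpow_add hA0]
        congr 2
        ring

theorem t_GLU (inv : S_INV) (avg : S_AVG) (scl : S_SCL) : S_GLU := by
  intro h hh
  obtain ⟨-, -, -, avg4⟩ := avg
  obtain ⟨CC, As, hCC, hAs, hscl⟩ := scl
  obtain ⟨I1, hI1, hI1'⟩ := inv.2.2.2.2.2.2.2.2.1
  obtain ⟨I2, hI2, hI2'⟩ := inv.2.2.2.2.2.2.2.2.2
  obtain ⟨C8, hC8⟩ := hh (1 / 8) (by norm_num)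
  obtain ⟨a0, ha0⟩ : ∃ a0 : ℕ, a0 = As + I1 + I2 + ⌈C8 ^ 2⌉₊ := ⟨_, rfl⟩
  have hHH : ∀ A : ℕ, a0 ≤ A → max (h (tt A ^ 4)) 0 ≤ tt A := by
    intro A hA
    have ht1 := tt_one_le A
    have ht0 : 0 < tt A := by linarith
    have f1 := hC8 (tt A ^ 4) (one_le_pow₀ ht1)
    have f2 : (tt A ^ 4) ^ (1 / 8 : ℝ) = √(tt A) := by
      rw [Real.sqrt_eq_rpow, ← Real.rpow_natCast, ← Real.rpow_mul ht0.le]
      congr 1
      norm_num
    rw [f2] at f1
    have f3 : C8 ^ 2 ≤ tt A := by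
      have g1 : C8 ^ 2 ≤ (⌈C8 ^ 2⌉₊ : ℝ) := Nat.le_ceil _
      have g2 : (⌈C8 ^ 2⌉₊ : ℝ) ≤ A := by
        have : ⌈C8 ^ 2⌉₊ ≤ A := by omega
        exact_mod_cast this
      have g3 := tt_ge A
      linarith
    have f4 : C8 ≤ √(tt A) := Real.le_sqrt_of_sq_le f3
    have f5 : C8 * √(tt A) ≤ tt A := by
      calc C8 * √(tt A) ≤ √(tt A) * √(tt A) := by gcongr
        _ = tt A := Real.mul_self_sqrt ht0.le
    exact max_le (f1.trans f5) ht0.le
  have hex : ∀ A : ℕ, a0 ≤ A → ∃ (e : ℕ) (c : ℕ → ℕ) (θ : ℕ → ℝ), 2 * A ≤ e ∧ (∀ n, c n ≤ 4) ∧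
      (∀ n, 0 ≤ θ n ∧ θ n < 1) ∧ tt A ^ 4 + max (h (tt A ^ 4)) 0 < tt e ∧
      (∀ n i, A ≤ n → n < e → i < c n → pt (c n) (θ n) n i + tt A ≤ tt A ^ 4) ∧
      (∀ n i n' i', A ≤ n → n < e → i < c n → A ≤ n' → n' < e → i' < c n' →
        pt (c n) (θ n) n i + pt (c n') (θ n') n' i' < tt A ^ 4 ∨
        tt A ^ 4 + max (h (tt A ^ 4)) 0 < pt (c n) (θ n) n i + pt (c n') (θ n') n' i') ∧
      ∀ δ : ℝ, 0 < δ → ∀ (m : ℤ) (n : ℕ), A ≤ n → n ≤ e →
        ‖∑ n' ∈ Finset.Ico A n, (cs m (c n') (θ n') n' - ci m n')‖ ≤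
          CC δ * (max (h (tt A ^ 4)) 0 + 1) * Real.log (tt A) ^ 2 * (n : ℝ) ^ (1 / 2 + δ) * LL m := by
    intro A hA
    exact hscl A _ (by omega) (le_max_right _ _) (hHH A hA)
  choose! e c θ he hc hθ hte h5 h6 h7 using hex
  obtain ⟨a, haa⟩ : ∃ a : ℕ → ℕ, a = fun i => e^[i] a0 := ⟨_, rfl⟩
  have haz : a 0 = a0 := by rw [haa]; rfl
  have has : ∀ i, a (i + 1) = e (a i) := by
    intro i
    rw [haa]
    exact Function.iterate_succ_apply' e i a0
  have ha01 : 1 ≤ a0 := by omega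
  have hage : ∀ i, a0 ≤ a i := by
    intro i
    induction i with
    | zero => rw [haz]
    | succ i ih =>
      rw [has]
      have := he (a i) ih
      omega
  have hdbl : ∀ i, 2 * a i ≤ a (i + 1) := by
    intro i
    rw [has]
    exact he (a i) (hage i)
  have hlt : ∀ i, a i < a (i + 1) := by
    intro i
    have h1 := hdbl i
    have h2 := hage i
    omega
  have hsm : StrictMono a := strictMono_nat_of_lt_succ hlt
  have hix : ∀ n, ∃ i, n < a (i + 1) := by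
    intro n
    refine ⟨n, ?_⟩
    have := hsm.id_le (n + 1)
    simp only [id] at this
    omega
  classical
  obtain ⟨ix, hixx⟩ : ∃ ix : ℕ → ℕ, ix = fun n => Nat.find (hix n) := ⟨_, rfl⟩
  have hix1 : ∀ i n, a i ≤ n → n < a (i + 1) → ix n = i := by
    intro i n h1 h2
    rw [hixx]
    show Nat.find (hix n) = i
    rw [Nat.find_eq_iff]
    refine ⟨h2, ?_⟩
    intro j hj h3
    have : a (j + 1) ≤ a i := hsm.monotone (by omega)
    omega
  have hix2 : ∀ n, a 0 ≤ n → ∃ i, a i ≤ n ∧ n < a (i + 1) := by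
    intro n hn
    refine ⟨Nat.find (hix n), ?_, Nat.find_spec (hix n)⟩
    rcases Nat.eq_zero_or_pos (Nat.find (hix n)) with h0 | h0
    · rw [h0]
      exact hn
    · have h1 := Nat.find_min (hix n) (m := Nat.find (hix n) - 1) (by omega)
      have h2 : Nat.find (hix n) - 1 + 1 = Nat.find (hix n) := by omega
      rw [h2] at h1
      omega
  obtain ⟨c', hc'⟩ : ∃ c' : ℕ → ℕ, c' = fun n => if n < a0 then 0 else c (a (ix n)) n := ⟨_, rfl⟩
  obtain ⟨θ', hθ'⟩ : ∃ θ' : ℕ → ℝ, θ' = fun n => if n < a0 then 0 else θ (a (ix n)) n := ⟨_, rfl⟩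
  have hcc : ∀ i n, a i ≤ n → n < a (i + 1) → c' n = c (a i) n ∧ θ' n = θ (a i) n := by
    intro i n h1 h2
    have h3 : ¬ n < a0 := by
      have := hage i
      omega
    rw [hc', hθ']
    simp only [h3, if_false, hix1 i n h1 h2]
    exact ⟨trivial, trivial⟩
  have hc4 : ∀ n, c' n ≤ 4 := by
    intro n
    rw [hc']
    simp only
    split_ifs with h1
    · omega
    · exact hc _ (hage _) n
  have hθ1 : ∀ n, 0 ≤ θ' n ∧ θ' n < 1 := by
    intro n
    rw [hθ']
    simp only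
    split_ifs with h1
    · norm_num
    · exact hθ _ (hage _) n
  have hc0 : ∀ n, n < a0 → c' n = 0 := by
    intro n hn
    rw [hc']
    simp only [hn, if_true]
  refine ⟨c', θ', ⟨hc4, hθ1, ⟨a0, ha01, hc0, fun n hn => hI1' n (by omega)⟩, ?_⟩, ?_⟩
  · intro δ hδ
    obtain ⟨C5, hC5, hC5'⟩ := glu_small h hh δ hδ
    apply glu_disc a (fun m n' => cs m (c' n') (θ' n') n' - ci m n') (1 / 2 + δ) (CC (δ / 2) * C5) (by linarith)
      (mul_nonneg (hCC _) hC5) (by rw [haz]; exact ha01) hdbl hix2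
    · intro m n hn
      rw [haz] at hn
      simp only [hc0 n hn]
      have : cs m 0 (θ' n) n = 0 := by simp [cs]
      rw [this, zero_sub, norm_neg]
      exact avg4 m n
    · intro i m n h1 h2
      have e1 : ∑ n' ∈ Finset.Ico (a i) n, (cs m (c' n') (θ' n') n' - ci m n') =
          ∑ n' ∈ Finset.Ico (a i) n, (cs m (c (a i) n') (θ (a i) n') n' - ci m n') := by
        apply Finset.sum_congr rfl
        intro n' hn'
        rw [Finset.mem_Ico] at hn'
        obtain ⟨f1, f2⟩ := hcc i n' hn'.1 (by omega)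
        rw [f1, f2]
      show ‖∑ n' ∈ Finset.Ico (a i) n, (cs m (c' n') (θ' n') n' - ci m n')‖ ≤ _
      rw [e1]
      rw [has] at h2
      have e2 := h7 (a i) (hage i) (δ / 2) (by positivity) m n h1 h2
      have e3 := hC5' (a i) (by have := hage i; omega) (hI2' (a i) (by have := hage i; omega))
      have hai : (1 : ℝ) ≤ a i := by
        have : 1 ≤ a i := by
          have := hage i
          omega
        exact_mod_cast this
      have hni : (a i : ℝ) ≤ n := by exact_mod_cast h1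
      have hn0 : (0 : ℝ) < n := by linarith
      have e4 : (a i : ℝ) ^ (δ / 2) ≤ (n : ℝ) ^ (δ / 2) :=
        Real.rpow_le_rpow (by linarith) hni (by positivity)
      have e5 := glu_LL m
      have e6 := hCC (δ / 2)
      have e7 : (n : ℝ) ^ (δ / 2) * (n : ℝ) ^ (1 / 2 + δ / 2) = (n : ℝ) ^ (1 / 2 + δ) := by
        rw [← Real.rpow_add hn0]
        congr 1
        ring
      have e8 : (0 : ℝ) ≤ (n : ℝ) ^ (1 / 2 + δ / 2) := by positivity
      calc _ ≤ _ := e2
        _ = CC (δ / 2) * ((max (h (tt (a i) ^ 4)) 0 + 1) * Real.log (tt (a i)) ^ 2) *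
            (n : ℝ) ^ (1 / 2 + δ / 2) * LL m := by ring
        _ ≤ CC (δ / 2) * (C5 * (n : ℝ) ^ (δ / 2)) * (n : ℝ) ^ (1 / 2 + δ / 2) * LL m := by
            have e9 : (max (h (tt (a i) ^ 4)) 0 + 1) * Real.log (tt (a i)) ^ 2 ≤ C5 * (n : ℝ) ^ (δ / 2) :=
              e3.trans (mul_le_mul_of_nonneg_left e4 hC5)
            gcongr
        _ = CC (δ / 2) * C5 * ((n : ℝ) ^ (δ / 2) * (n : ℝ) ^ (1 / 2 + δ / 2)) * LL m := by ring
        _ = _ := by rw [e7]
  · intro Y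
    obtain ⟨i, hi⟩ : ∃ i : ℕ, i = ⌈Y⌉₊ := ⟨_, rfl⟩
    have hA := hage i
    have hA1 : 1 ≤ a i := by omega
    have ht2 := tt_two hA1
    have ht4 : 2 * tt (a i) ≤ tt (a i) ^ 4 := by
      have e1 : (2 : ℝ) ^ 3 ≤ tt (a i) ^ 3 := by gcongr
      nlinarith
    refine ⟨tt (a i) ^ 4, ?_, ?_⟩
    · have e1 : Y ≤ (⌈Y⌉₊ : ℝ) := Nat.le_ceil _
      have e2 : (i : ℝ) ≤ a i := by
        have := hsm.id_le i
        simp only [id] at this
        exact_mod_cast this
      have e3 := tt_ge (a i)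
      rw [← hi] at e1
      linarith
    · have hy : h (tt (a i) ^ 4) ≤ max (h (tt (a i) ^ 4)) 0 := le_max_left _ _
      have hbig : ∀ n j, j < c' n → a (i + 1) ≤ n →
          tt (a i) ^ 4 + h (tt (a i) ^ 4) < pt (c' n) (θ' n) n j := by
        intro n j hj hn
        have e1 : tt n ≤ pt (c' n) (θ' n) n j := glu_pt_ge inv n (hθ1 n).1
        have e2 : tt (a (i + 1)) ≤ tt n := tt_mono.monotone hn
        have e3 := hte (a i) hA
        rw [← has] at e3
        linarith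
      have hp : ∀ n j, 1 ≤ pt (c' n) (θ' n) n j := fun n j =>
        (tt_one_le n).trans (glu_pt_ge inv n (hθ1 n).1)
      have hsm2 : ∀ n j, j < c' n → n < a i → pt (c' n) (θ' n) n j < tt (a i) := by
        intro n j hj hn
        have e1 : pt (c' n) (θ' n) n j < tt (n + 1) := glu_pt_lt inv n hj (hθ1 n).1 (hθ1 n).2
        have e2 : tt (n + 1) ≤ tt (a i) := tt_mono.monotone hn
        linarith
      have hmid : ∀ n j, j < c' n → a i ≤ n → n < a (i + 1) →
          pt (c' n) (θ' n) n j + tt (a i) ≤ tt (a i) ^ 4 := by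
        intro n j hj h1 h2
        obtain ⟨f1, f2⟩ := hcc i n h1 h2
        rw [f1] at hj
        rw [f1, f2]
        rw [has] at h2
        exact h5 (a i) hA n j h1 h2 hj
      intro n j n' j' hj hj'
      rcases le_or_gt (a (i + 1)) n with h1 | h1
      · right
        have := hbig n j hj h1
        have := hp n' j'
        linarith
      rcases le_or_gt (a (i + 1)) n' with h2 | h2
      · right
        have := hbig n' j' hj' h2
        have := hp n j
        linarith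
      rcases le_or_gt (a i) n with h3 | h3
      · rcases le_or_gt (a i) n' with h4 | h4
        · obtain ⟨f1, f2⟩ := hcc i n h3 h1
          obtain ⟨g1, g2⟩ := hcc i n' h4 h2
          rw [f1] at hj
          rw [g1] at hj'
          rw [f1, f2, g1, g2]
          rw [has] at h1 h2
          rcases h6 (a i) hA n j n' j' h3 h1 hj h4 h2 hj' with k1 | k1
          · left
            exact k1
          · right
            linarith
        · left
          have e1 := hmid n j hj h3 h1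
          have e2 := hsm2 n' j' hj' h4
          linarith
      · left
        rcases le_or_gt (a i) n' with h4 | h4
        · have e1 := hmid n' j' hj' h4 h2
          have e2 := hsm2 n j hj h3
          linarith
        · have e1 := hsm2 n j hj h3
          have e2 := hsm2 n' j' hj' h4
          linarith

end Pool.Agent.H68.GB
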