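import Pool.Agent.H68.GB.Stm
import Pool.Agent.H49.BP.Trans

/-!
# Project GB (helper68), module INV (helper40): the inverse function
-/

set_option autoImplicit false

namespace Pool.Agent.H68.GB

open MeasureTheory Filter Topology Set Pool.Agent.H49.BP

theorem F_spec {v : ℝ} (hv : 0 ≤ v) : 1 ≤ F v ∧ MM (F v) = v := by
  unfold F
  rw [dif_pos hv]
  exact (exists_F hv).choose_spec

theorem F_neg {v : ℝ} (hv : v < 0) : F v = 1 := by
  unfold F
  rw [dif_neg (not_le.2 hv)]

theorem MM_inj {a b : ℝ} (ha : 1 ≤ a) (hb : 1 ≤ b) (h : MM a = MM b) : a = b :=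
  le_antisymm ((MM_le_iff ha hb).1 h.le) ((MM_le_iff hb ha).1 h.ge)

theorem F_MM {u : ℝ} (hu : 1 ≤ u) : F (MM u) = u :=
  MM_inj (F_spec (MM_nonneg hu)).1 hu (F_spec (MM_nonneg hu)).2

theorem F_nat (n : ℕ) : F n = tt n :=
  MM_inj (F_spec (Nat.cast_nonneg n)).1 (tt_one_le n)
    (by rw [(F_spec (Nat.cast_nonneg n)).2, MM_tt])

theorem F_strict : StrictMonoOn F (Ici 0) := by
  intro v hv w hw hvw
  rw [← MM_lt_iff (F_spec hv).1 (F_spec hw).1, (F_spec hv).2, (F_spec hw).2]
  exact hvw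

theorem F_mono : Monotone F := by
  intro v w hvw
  rcases lt_or_ge v 0 with hv | hv
  · rw [F_neg hv]
    rcases lt_or_ge w 0 with hw | hw
    · rw [F_neg hw]
    · exact (F_spec hw).1
  · exact F_strict.monotoneOn hv (hv.trans hvw : (0 : ℝ) ≤ w) hvw

/-- an extension which is strictly increasing on the line -/
noncomputable def G (v : ℝ) : ℝ := if v < 0 then v + 1 else F v

theorem G_strict : StrictMono G := by
  intro v w hvw
  unfold G
  rcases lt_or_ge v 0 with hv | hv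
  · rw [if_pos hv]
    rcases lt_or_ge w 0 with hw | hw
    · rw [if_pos hw]
      linarith
    · rw [if_neg (not_lt.2 hw)]
      linarith [(F_spec hw).1]
  · rw [if_neg (not_lt.2 hv), if_neg (not_lt.2 (hv.trans hvw.le))]
    exact F_strict hv (hv.trans hvw.le : (0 : ℝ) ≤ w) hvw

theorem G_surj : Function.Surjective G := by
  intro y
  rcases lt_or_ge y 1 with hy | hy
  · refine ⟨y - 1, ?_⟩
    unfold G
    rw [if_pos (by linarith)]
    ring
  · refine ⟨MM y, ?_⟩
    unfold G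
    rw [if_neg (not_lt.2 (MM_nonneg hy)), F_MM hy]

theorem G_cont : Continuous G :=
  (StrictMono.orderIsoOfSurjective G G_strict G_surj).continuous

theorem F_cont : ContinuousOn F (Ici 0) := by
  refine G_cont.continuousOn.congr fun v hv => ?_
  unfold G
  rw [if_neg (not_lt.2 hv)]

theorem F_sub {v w : ℝ} (hv : 0 ≤ v) (hvw : v ≤ w) : w - v ≤ F w - F v := by
  have h := MM_sub_le (F_spec hv).1 (F_mono hvw)
  rw [(F_spec hv).2, (F_spec (hv.trans hvw)).2] at h
  exact h

theorem MM_deriv {x : ℝ} (hx : 1 < x) : HasDerivAt MM (md x) x := by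
  unfold MM
  refine intervalIntegral.integral_hasDerivAt_right (md_int le_rfl hx.le) ?_ (md_cont hx)
  exact md_meas.stronglyMeasurable.stronglyMeasurableAtFilter

theorem F_zero : F 0 = 1 := by
  have h := F_nat 0
  rw [Nat.cast_zero, tt_zero] at h
  exact h

theorem F_int (m : ℤ) {a b : ℝ} (ha : 1 ≤ a) (hab : a ≤ b) :
    ∫ v in a..b, em m (F v) = ∫ u in (F a)..(F b), em m u * (md u : ℂ) := by
  have ha0 : 0 ≤ a := by linarith
  have hFa : 2 ≤ F a := by
    have h := F_sub le_rfl ha0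
    rw [F_zero] at h
    linarith
  have hFab : F a ≤ F b := F_mono hab
  have hder : ∀ x ∈ uIcc (F a) (F b), HasDerivAt MM (md x) x := by
    intro x hx
    rw [uIcc_of_le hFab] at hx
    exact MM_deriv (by linarith [hx.1])
  have hmdc : ContinuousOn md (uIcc (F a) (F b)) := by
    intro x hx
    rw [uIcc_of_le hFab] at hx
    exact (md_cont (by linarith [hx.1])).continuousWithinAt
  have hg : ContinuousOn (fun v => em m (F v)) (MM '' uIcc (F a) (F b)) := by
    rintro v ⟨x, hx, rfl⟩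
    rw [uIcc_of_le hFab] at hx
    have hx1 : 1 ≤ x := by linarith [hx.1]
    have hMM : 0 ≤ MM x := MM_nonneg hx1
    have h1 : ContinuousWithinAt F (MM '' uIcc (F a) (F b)) (MM x) := by
      refine (F_cont (MM x) hMM).mono ?_
      rintro w ⟨y, hy, rfl⟩
      rw [uIcc_of_le hFab] at hy
      exact MM_nonneg (by linarith [hy.1])
    have h2 : ContinuousAt (em m) (F (MM x)) := by
      rw [F_MM hx1]
      exact em_cont m (by linarith)
    exact h2.comp_continuousWithinAt h1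
  have h := intervalIntegral.integral_deriv_smul_comp' hder hmdc hg
  rw [(F_spec ha0).2, (F_spec (ha0.trans hab)).2] at h
  rw [← h]
  refine intervalIntegral.integral_congr fun x hx => ?_
  rw [uIcc_of_le hFab] at hx
  have hx1 : 1 ≤ x := by linarith [hx.1]
  show md x • em m (F (MM x)) = em m x * (md x : ℂ)
  rw [F_MM hx1, Complex.real_smul, mul_comm]

theorem tt_big : ∃ A0 : ℕ, 1 ≤ A0 ∧ ∀ n : ℕ, A0 ≤ n → 4 * (n : ℝ) + 8 ≤ tt n := by
  set x0 : ℝ := Real.exp 8 with hx0
  have hx1 : 1 < x0 := by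
    rw [hx0]
    exact Real.one_lt_exp_iff.2 (by norm_num)
  have hlog : Real.log x0 = 8 := by rw [hx0, Real.log_exp]
  obtain ⟨N1, hN1⟩ := exists_nat_ge x0
  obtain ⟨N2, hN2⟩ := exists_nat_ge (2 * MM x0 + 2)
  refine ⟨N1 + N2 + 1, by omega, fun n hn => ?_⟩
  have h1 : (N1 : ℝ) ≤ n := by exact_mod_cast (by omega : N1 ≤ n)
  have h2 : (N2 : ℝ) ≤ n := by exact_mod_cast (by omega : N2 ≤ n)
  have h3 := tt_ge n
  have h4 : x0 ≤ tt n := by linarith
  have h5 := MM_inc_le hx1 h4
  rw [MM_tt, hlog, le_div_iff₀ (by norm_num)] at h5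
  have h6 := MM_nonneg hx1.le
  linarith

theorem tt_sq : ∃ A0 : ℕ, 1 ≤ A0 ∧ ∀ n : ℕ, A0 ≤ n → tt n ≤ (n : ℝ) ^ 2 := by
  have h1 : ∀ᶠ x : ℝ in atTop, ‖Real.log x‖ ≤ 1 / 8 * ‖x ^ (1 / 2 : ℝ)‖ :=
    (isLittleO_log_rpow_atTop (by norm_num : (0 : ℝ) < 1 / 2)).def (by norm_num)
  obtain ⟨X, hX⟩ := eventually_atTop.1 h1
  obtain ⟨N, hN⟩ := exists_nat_ge (max X 4)
  refine ⟨N + 1, by omega, fun n hn => ?_⟩
  have h2 : (N : ℝ) ≤ n := by exact_mod_cast (by omega : N ≤ n)
  have h3 := tt_ge n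
  have h4 : X ≤ tt n := by linarith [le_max_left X 4]
  have h5 : 4 ≤ tt n := by linarith [le_max_right X 4]
  have h6 := hX _ h4
  set x := tt n with hx
  have hx0 : 0 < x := by linarith
  have hl : 0 < Real.log x := Real.log_pos (by linarith)
  rw [Real.norm_of_nonneg hl.le, Real.norm_of_nonneg (Real.rpow_nonneg hx0.le _),
    ← Real.sqrt_eq_rpow] at h6
  by_contra hcon
  push Not at hcon
  have h7 : (n : ℝ) < √x := by
    rw [Real.lt_sqrt (Nat.cast_nonneg n)]
    exact hcon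
  have h8 := le_MM_inc (a := 2) (b := x) le_rfl (by linarith)
  rw [div_le_iff₀ (by positivity)] at h8
  have h9 : MM x = n := MM_tt n
  have h10 := MM_nonneg (x := 2) (by norm_num)
  have h11 : x - 2 ≤ n * (2 * Real.log x) := by
    rw [h9] at h8
    have : 0 ≤ MM 2 * (2 * Real.log x) := by positivity
    nlinarith
  have h12 : (n : ℝ) * (2 * Real.log x) ≤ √x * (2 * (1 / 8 * √x)) := by
    have hs : 0 ≤ √x := Real.sqrt_nonneg x
    gcongr
  have h13 : √x * (2 * (1 / 8 * √x)) = x / 4 := by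
    have := Real.mul_self_sqrt hx0.le
    nlinarith
  linarith

theorem t_INV : S_INV :=
  ⟨fun _ hv => F_spec hv, fun _ hu => F_MM hu, F_nat, F_strict, F_mono, F_cont,
    fun _ _ hv hvw => F_sub hv hvw, fun m _ _ ha hab => F_int m ha hab, tt_big, tt_sq⟩

end Pool.Agent.H68.GB
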