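import Pool.Agent.H68.GB.Stm

set_option autoImplicit false

/-!
# Project GB (helper68), module SCL (helper39): one scale
-/

namespace Pool.Agent.H68.GB

open MeasureTheory Filter Topology Set Pool.Agent.H49.BP

noncomputable section

namespace SCL

lemma LL_ge (m : ℤ) : 1 ≤ LL m := Real.one_le_sqrt.2 (L_ge m)

lemma pt_bd (inv : S_INV) {c : ℕ} {θ : ℝ} (n : ℕ) {i : ℕ} (h0 : 0 ≤ θ) (h1 : θ < 1)
    (hi : i < c) : tt n ≤ pt c θ n i ∧ pt c θ n i < tt (n + 1) := by
  obtain ⟨-, -, h3, h4, -⟩ := inv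
  have hc : (0 : ℝ) < c := by
    have : 0 < c := by omega
    exact_mod_cast this
  have hi' : (i : ℝ) + 1 ≤ c := by exact_mod_cast hi
  have hi0 : (0 : ℝ) ≤ i := Nat.cast_nonneg i
  have hn0 : (0 : ℝ) ≤ n := Nat.cast_nonneg n
  have h5 : 0 ≤ (θ + i) / c := by positivity
  have h6 : (θ + i) / c < 1 := by
    rw [div_lt_one hc]
    linarith
  constructor
  · rw [← h3 n]
    exact h4.monotoneOn (show (0 : ℝ) ≤ n from hn0) (show (0 : ℝ) ≤ n + (θ + i) / c by linarith)
      (by linarith)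
  · rw [← h3 (n + 1)]
    unfold pt
    refine h4 (show (0 : ℝ) ≤ n + (θ + i) / c by linarith)
      (show (0 : ℝ) ≤ ((n + 1 : ℕ) : ℝ) by positivity) ?_
    push_cast
    linarith

lemma sum_win (f : ℕ → ℂ) (A W : ℕ) (k : ℕ) :
    ∑ n ∈ Finset.Ico A (A + k * W), f n =
      ∑ j ∈ Finset.range k, ∑ n ∈ Finset.Ico (A + j * W) (A + (j + 1) * W), f n := by
  induction k with
  | zero => simp
  | succ k ih =>
    rw [Finset.sum_range_succ, ← ih, Finset.sum_Ico_consecutive]
    · exact Nat.le_add_right _ _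
    · exact Nat.add_le_add_left (Nat.mul_le_mul_right _ (Nat.le_succ k)) _

lemma sum_winR (f : ℕ → ℂ) (b : ℕ → ℕ) (hb : Antitone b) (k : ℕ) :
    ∑ n ∈ Finset.Ico (b k) (b 0), f n =
      ∑ j ∈ Finset.range k, ∑ n ∈ Finset.Ico (b (j + 1)) (b j), f n := by
  induction k with
  | zero => simp
  | succ k ih =>
    rw [Finset.sum_range_succ, ← ih, add_comm (∑ n ∈ Finset.Ico (b k) (b 0), f n),
      Finset.sum_Ico_consecutive]
    · exact hb (Nat.le_succ k)
    · exact hb (Nat.zero_le k)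

lemma sum_bd (f : ℕ → ℂ) (D : ℝ) (a n B : ℕ) (hD : 0 ≤ D)
    (hf : ∀ k, a ≤ k → k < n → ‖f k‖ ≤ D) (hn : n ≤ a + B) :
    ‖∑ k ∈ Finset.Ico a n, f k‖ ≤ D * B := by
  calc ‖∑ k ∈ Finset.Ico a n, f k‖ ≤ ∑ k ∈ Finset.Ico a n, D := by
        refine norm_sum_le_of_le _ fun k hk => ?_
        rw [Finset.mem_Ico] at hk
        exact hf k hk.1 hk.2
    _ = ((n - a : ℕ) : ℝ) * D := by
        rw [Finset.sum_const, Nat.card_Ico, nsmul_eq_mul]
    _ ≤ (B : ℝ) * D := by
        refine mul_le_mul_of_nonneg_right ?_ hD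
        exact_mod_cast (by omega : n - a ≤ B)
    _ = D * B := mul_comm _ _

end SCL

open SCL

theorem t_SCL (inv : S_INV) (avg : S_AVG) (stp : S_STP) (geo : S_GEO) : S_SCL := by
  obtain ⟨CC₁, hCC₁, stp⟩ := stp
  obtain ⟨C₂, A₂, hC₂, hA₂, geo⟩ := geo
  obtain ⟨A₃, hA₃, h48⟩ := inv.2.2.2.2.2.2.2.2.1
  obtain ⟨-, -, avg3, avg4⟩ := avg
  refine ⟨fun δ => 3 * CC₁ δ * C₂ + 10 * C₂ + 5, max A₂ A₃,
    fun δ => by have := hCC₁ δ; positivity, le_max_of_le_left hA₂, ?_⟩
  intro A H hA hH0 hH1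
  obtain ⟨W, K, B, e, b, hW, hWB, hB, hb, hbB, hAK, hAK', hbK, hb0, he, h2A, hte, htK, htbK,
    hle, hlt⟩ := geo A H (le_trans (le_max_left _ _) hA) hH0 hH1
  have hA1 : 1 ≤ A := le_trans hA₂ (le_trans (le_max_left _ _) hA)
  have htA2 : 2 ≤ tt A := tt_two hA1
  have htA12 : 12 ≤ tt A := by
    have h1 := h48 A (le_trans (le_max_right _ _) hA)
    have h2 : (1 : ℝ) ≤ A := by exact_mod_cast hA1
    linarith
  have hlog1 : 1 ≤ Real.log (tt A) := by
    rw [Real.le_log_iff_exp_le (by linarith)]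
    linarith [Real.exp_one_lt_d9]
  have hlog : 1 ≤ Real.log (tt A) ^ 2 := one_le_pow₀ hlog1
  have hbK1 : 1 ≤ b K := by
    have h1 : (1 : ℝ) ≤ b K := by nlinarith
    exact_mod_cast h1
  -- the modified sequence
  obtain ⟨b', hb'def⟩ : ∃ b' : ℕ → ℕ, ∀ k, b' k = b (min k K) := ⟨fun k => b (min k K), fun _ => rfl⟩
  have hb'le : ∀ k, k ≤ K → b' k = b k := fun k hk => by rw [hb'def, min_eq_left hk]
  have hb' : Antitone b' := by
    intro i j hij
    rw [hb'def, hb'def]
    exact hb (min_le_min_right K hij)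
  have hb'K : ∀ k, b K ≤ b' k := fun k => by
    rw [hb'def]
    exact hb (min_le_right _ _)
  have hb'1 : ∀ k, 1 ≤ b' k := fun k => hbK1.trans (hb'K k)
  have hb'B : ∀ k, b' k ≤ b' (k + 1) + B := by
    intro k
    rcases lt_or_ge k K with h | h
    · rw [hb'le k h.le, hb'le (k + 1) h]
      exact hbB k
    · rw [hb'def, hb'def, min_eq_right h, min_eq_right (h.trans (Nat.le_succ k))]
      exact Nat.le_add_right _ _
  obtain ⟨s, θ', hθ', hstp⟩ := stp A W B b' hA1 hW hWB hb' hb'1 hb'B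
  -- the index of the right window
  obtain ⟨r, hr1, hr2⟩ : ∃ r : ℕ → ℕ, (∀ n, b K ≤ n → b' (r n) ≤ n) ∧
      ∀ n j, b' j ≤ n → r n ≤ j :=
    ⟨fun n => sInf {j | b' j ≤ n}, fun n hn => Nat.sInf_mem (s := {j | b' j ≤ n})
      ⟨K, by
        show b' K ≤ n
        rw [hb'le K le_rfl]
        exact hn⟩, fun n j hj => Nat.sInf_le hj⟩
  have hr3 : ∀ n j, j < r n → n < b' j := fun n j hj => by
    by_contra h
    push Not at h
    exact absurd (hr2 n j h) (by omega)
  obtain ⟨c, hc⟩ : ∃ c : ℕ → ℕ, ∀ n, c n = if n < A + K * W then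
      (if s ((n - A) / W) && s ((n - A) / W + 1) then 4 else 0)
      else if b K ≤ n ∧ n < b 0 then (if s (r n) then 0 else 2) else 0 := ⟨_, fun _ => rfl⟩
  obtain ⟨θ, hθ⟩ : ∃ θ : ℕ → ℝ, ∀ n, θ n = if n < A + K * W then θ' ((n - A) / W)
      else θ' (r n - 1) := ⟨_, fun _ => rfl⟩
  have hθ0 : ∀ n, 0 ≤ θ n ∧ θ n < 1 := by
    intro n
    rw [hθ]
    split_ifs
    · exact hθ' _
    · exact hθ' _
  have hc4 : ∀ n, c n ≤ 4 := by
    intro n
    rw [hc]
    split_ifs <;> omega
  -- left windows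
  have hL : ∀ j n, j < K → A + j * W ≤ n → n < A + (j + 1) * W →
      c n = (if s j && s (j + 1) then 4 else 0) ∧ θ n = θ' j := by
    intro j n hj h1 h2
    have h3 : (n - A) / W = j := by
      refine Nat.div_eq_of_lt_le ?_ ?_
      · omega
      · omega
    have h4 : (j + 1) * W ≤ K * W := Nat.mul_le_mul_right _ hj
    have h5 : n < A + K * W := by omega
    rw [hc, hθ, if_pos h5, if_pos h5, h3]
    exact ⟨rfl, rfl⟩
  have hR : ∀ j n, j < K → b (j + 1) ≤ n → n < b j →
      c n = (if s (j + 1) then 0 else 2) ∧ θ n = θ' j := by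
    intro j n hj h1 h2
    have h3 : r n = j + 1 := by
      refine le_antisymm (hr2 n (j + 1) (by rw [hb'le (j + 1) hj]; exact h1)) ?_
      by_contra h
      push Not at h
      have h4 : r n ≤ j := by omega
      have h5 := hb' h4
      have h6 := hr1 n ((hb (show j + 1 ≤ K from hj)).trans h1)
      rw [hb'le j hj.le] at h5
      omega
    have h7 : b K ≤ n := (hb (show j + 1 ≤ K from hj)).trans h1
    have h8 : n < b 0 := h2.trans_le (hb (Nat.zero_le j))
    have h9 : ¬ n < A + K * W := by omega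
    rw [hc, hθ, if_neg h9, if_neg h9, if_pos ⟨h7, h8⟩, h3]
    exact ⟨rfl, rfl⟩
  have hG : ∀ n, A + K * W ≤ n → (n < b K ∨ b 0 ≤ n) → c n = 0 := by
    intro n h1 h2
    rw [hc, if_neg (by omega), if_neg (by omega)]
  -- classification of the cells with points
  have hcl : ∀ n i, A ≤ n → i < c n →
      (∃ k, k < K ∧ A + k * W ≤ n ∧ n < A + (k + 1) * W ∧ s k = true ∧ s (k + 1) = true) ∨
      (∃ k, k < K ∧ b (k + 1) ≤ n ∧ n < b k ∧ s (k + 1) = false) := by
    intro n i hn hi
    by_cases h1 : n < A + K * W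
    · left
      have h2 : (n - A) / W < K := by
        rw [Nat.div_lt_iff_lt_mul (by omega)]
        omega
      have h3 : (n - A) / W * W ≤ n - A := Nat.div_mul_le_self _ _
      have h4 : n - A < ((n - A) / W + 1) * W := by
        rw [add_mul, one_mul]
        exact Nat.lt_div_mul_add (by omega)
      refine ⟨(n - A) / W, h2, by omega, by omega, ?_⟩
      rw [hc, if_pos h1] at hi
      by_contra h5
      rw [if_neg (by simpa using h5)] at hi
      omega
    · by_cases h2 : b K ≤ n ∧ n < b 0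
      · right
        have h3 : r n ≤ K := hr2 n K (by rw [hb'le K le_rfl]; exact h2.1)
        have h4 : r n ≠ 0 := by
          intro h
          have h5 := hr1 n h2.1
          rw [h, hb'le 0 (Nat.zero_le _)] at h5
          omega
        have h6 := hr1 n h2.1
        have h7 := hr3 n (r n - 1) (by omega)
        rw [hb'le _ h3] at h6
        rw [hb'le _ (by omega)] at h7
        refine ⟨r n - 1, by omega, ?_, h7, ?_⟩
        · rw [Nat.sub_add_cancel (by omega)]
          exact h6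
        · rw [Nat.sub_add_cancel (by omega)]
          rw [hc, if_neg h1, if_pos h2] at hi
          by_contra h5
          rw [if_pos (by simpa using h5)] at hi
          omega
      · rw [hc, if_neg h1, if_neg h2] at hi
        omega
  have htt : ∀ {i j : ℕ}, i ≤ j → tt i ≤ tt j := fun h => tt_mono.monotone h
  have hbd : ∀ n i, i < c n → tt n ≤ pt (c n) (θ n) n i ∧ pt (c n) (θ n) n i < tt (n + 1) :=
    fun n i hi => pt_bd inv n (hθ0 n).1 (hθ0 n).2 hi
  refine ⟨e, c, θ, h2A, hc4, hθ0, hte, ?_, ?_, ?_⟩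
  · intro n i hn _ hi
    obtain ⟨h1, h2⟩ := hbd n i hi
    rcases hcl n i hn hi with ⟨k, hk, h3, h4, -⟩ | ⟨k, hk, h3, h4, -⟩
    · have h5 : (k + 1) * W ≤ K * W := Nat.mul_le_mul_right _ hk
      have h6 := htt (show n + 1 ≤ A + K * W by omega)
      have h7 : tt A * 8 ≤ tt A ^ 4 := by
        have : 8 ≤ tt A ^ 3 := by
          calc (8 : ℝ) = 2 ^ 3 := by norm_num
            _ ≤ tt A ^ 3 := pow_le_pow_left₀ (by norm_num) htA2 3
        nlinarith
      linarith
    · have h5 : b k ≤ b 0 := hb (Nat.zero_le k)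
      have h6 := htt (show n + 1 ≤ b 0 by omega)
      have h7 := hle 0 (Nat.zero_le _)
      rw [Nat.zero_mul, Nat.add_zero] at h7
      linarith
  · -- two points
    have hmix : ∀ n i n' i', A ≤ n → i < c n → A ≤ n' → i' < c n' →
        (∃ k, k < K ∧ A + k * W ≤ n ∧ n < A + (k + 1) * W ∧ s k = true ∧ s (k + 1) = true) →
        (∃ k, k < K ∧ b (k + 1) ≤ n' ∧ n' < b k ∧ s (k + 1) = false) →
        pt (c n) (θ n) n i + pt (c n') (θ n') n' i' < tt A ^ 4 ∨
        tt A ^ 4 + H < pt (c n) (θ n) n i + pt (c n') (θ n') n' i' := by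
      rintro n i n' i' hn hi hn' hi' ⟨k, hk, h3, h4, hs1, hs2⟩ ⟨j, hj, h5, h6, hs3⟩
      obtain ⟨h1, h2⟩ := hbd n i hi
      obtain ⟨h1', h2'⟩ := hbd n' i' hi'
      have hne1 : j ≠ k := by
        rintro rfl
        rw [hs2] at hs3
        exact absurd hs3 (by simp)
      have hne2 : j + 1 ≠ k := by
        rintro rfl
        rw [hs1] at hs3
        exact absurd hs3 (by simp)
      rcases lt_or_ge j k with hlt' | hge
      · right
        obtain ⟨k', rfl⟩ : ∃ k', k = k' + 1 := ⟨k - 1, by omega⟩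
        have h7 := hlt k' (by omega)
        have h8 := htt h3
        have h9 := htt ((hb (show j + 1 ≤ k' by omega)).trans h5)
        linarith
      · left
        have h7 := hle (k + 1) (by omega)
        have h8 := htt (show n + 1 ≤ A + (k + 1) * W by omega)
        have h9 := htt (show n' + 1 ≤ b (k + 1) from
          le_trans (by omega : n' + 1 ≤ b j) (hb (by omega)))
        linarith
    intro n i n' i' hn _ hi hn' _ hi'
    rcases hcl n i hn hi with hl | hr
    · rcases hcl n' i' hn' hi' with hl' | hr'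
      · left
        obtain ⟨h1, h2⟩ := hbd n i hi
        obtain ⟨h1', h2'⟩ := hbd n' i' hi'
        obtain ⟨k, hk, h3, h4, -⟩ := hl
        obtain ⟨k', hk', h3', h4', -⟩ := hl'
        have h5 : (k + 1) * W ≤ K * W := Nat.mul_le_mul_right _ hk
        have h5' : (k' + 1) * W ≤ K * W := Nat.mul_le_mul_right _ hk'
        have h6 := htt (show n + 1 ≤ A + K * W by omega)
        have h6' := htt (show n' + 1 ≤ A + K * W by omega)
        linarith
      · exact hmix n i n' i' hn hi hn' hi' hl hr'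
    · rcases hcl n' i' hn' hi' with hl' | hr'
      · rw [add_comm (pt (c n) (θ n) n i)]
        exact hmix n' i' n i hn' hi' hn hi hl' hr
      · right
        obtain ⟨h1, h2⟩ := hbd n i hi
        obtain ⟨h1', h2'⟩ := hbd n' i' hi'
        obtain ⟨k, hk, h3, h4, -⟩ := hr
        obtain ⟨k', hk', h3', h4', -⟩ := hr'
        have h6 := htt ((hb (show k + 1 ≤ K from hk)).trans h3)
        have h6' := htt ((hb (show k' + 1 ≤ K from hk')).trans h3')
        linarith
  · -- the discrepancy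
    intro δ hδ m n hn hne
    set f : ℕ → ℂ := fun n' => cs m (c n') (θ n') n' - ci m n' with hf
    have hf5 : ∀ k, ‖f k‖ ≤ 5 := by
      intro k
      have h1 := avg3 m (c k) k (θ k)
      have h2 := avg4 m k
      have h3 : (c k : ℝ) ≤ 4 := by exact_mod_cast hc4 k
      calc ‖f k‖ ≤ ‖cs m (c k) (θ k) k‖ + ‖ci m k‖ := norm_sub_le _ _
        _ ≤ 4 + 1 := by linarith
        _ = 5 := by norm_num
    have hLm := LL_ge m
    have hx : ∀ {i j : ℕ}, i ≤ j → (i : ℝ) ^ (1 / 2 + δ) ≤ (j : ℝ) ^ (1 / 2 + δ) := fun h =>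
      Real.rpow_le_rpow (Nat.cast_nonneg _) (by exact_mod_cast h) (by linarith)
    have hn1 : 1 ≤ (n : ℝ) ^ (1 / 2 + δ) :=
      Real.one_le_rpow (by exact_mod_cast hA1.trans hn) (by linarith)
    have hCB : 0 ≤ CC₁ δ * B := mul_nonneg (hCC₁ δ) (Nat.cast_nonneg _)
    set X : ℝ := CC₁ δ * B * (n : ℝ) ^ (1 / 2 + δ) * LL m with hX
    have hX0 : 0 ≤ X := by positivity
    have hup : ∀ k : ℕ, k ≤ n → CC₁ δ * B * (k : ℝ) ^ (1 / 2 + δ) * LL m ≤ X := by
      intro k hk
      have := hx hk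
      rw [hX]
      gcongr
    -- full left windows
    have hSL : ∀ k, k ≤ K → k ≤ n → ‖∑ n' ∈ Finset.Ico A (A + k * W), f n'‖ ≤ X := by
      intro k hk hkn
      rw [sum_win]
      have h1 := (hstp δ hδ m k).1
      have h2 : ∑ j ∈ Finset.range k, ∑ n' ∈ Finset.Ico (A + j * W) (A + (j + 1) * W), f n' =
          ∑ j ∈ Finset.range k, ∑ n' ∈ Finset.Ico (A + j * W) (A + (j + 1) * W),
            (cs m (if s j && s (j + 1) then 4 else 0) (θ' j) n' - ci m n') := by
        refine Finset.sum_congr rfl fun j hj => Finset.sum_congr rfl fun n' hn' => ?_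
        rw [Finset.mem_range] at hj
        rw [Finset.mem_Ico] at hn'
        obtain ⟨h3, h4⟩ := hL j n' (by omega) hn'.1 hn'.2
        simp only [hf]
        rw [h3, h4]
      rw [h2]
      exact h1.trans (hup k hkn)
    have hSR : ∀ k, k ≤ K → k ≤ n → ‖∑ n' ∈ Finset.Ico (b k) (b 0), f n'‖ ≤ X := by
      intro k hk hkn
      rw [sum_winR f b hb]
      have h1 := (hstp δ hδ m k).2
      have h2 : ∑ j ∈ Finset.range k, ∑ n' ∈ Finset.Ico (b (j + 1)) (b j), f n' =
          ∑ j ∈ Finset.range k, ∑ n' ∈ Finset.Ico (b' (j + 1)) (b' j),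
            (cs m (if s (j + 1) then 0 else 2) (θ' j) n' - ci m n') := by
        refine Finset.sum_congr rfl fun j hj => ?_
        rw [Finset.mem_range] at hj
        rw [hb'le j (by omega), hb'le (j + 1) (by omega)]
        refine Finset.sum_congr rfl fun n' hn' => ?_
        rw [Finset.mem_Ico] at hn'
        obtain ⟨h3, h4⟩ := hR j n' (by omega) hn'.1 hn'.2
        simp only [hf]
        rw [h3, h4]
      rw [h2]
      exact h1.trans (hup k hkn)
    have hKn : ∀ {k : ℕ}, A + K * W ≤ n → k ≤ K → k ≤ n := by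
      intro k h1 h2
      have : K * 1 ≤ K * W := Nat.mul_le_mul_left _ hW
      omega
    -- the first part
    have hP1 : n ≤ b K → ‖∑ n' ∈ Finset.Ico A n, f n'‖ ≤ X + 5 * B := by
      intro hnb
      obtain ⟨k, hk, hkn, h1, h2⟩ : ∃ k, k ≤ K ∧ k ≤ n ∧ A + k * W ≤ n ∧ n ≤ A + k * W + B := by
        rcases lt_or_ge n (A + K * W) with h | h
        · have h3 : (n - A) / W * W ≤ n - A := Nat.div_mul_le_self _ _
          have h4 : n - A < (n - A) / W * W + W := Nat.lt_div_mul_add (by omega)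
          have h5 : (n - A) / W < K := by
            rw [Nat.div_lt_iff_lt_mul (by omega)]
            omega
          refine ⟨(n - A) / W, h5.le, ?_, by omega, by omega⟩
          have h6 : (n - A) / W * 1 ≤ (n - A) / W * W := Nat.mul_le_mul_left _ hW
          omega
        · exact ⟨K, le_rfl, hKn h le_rfl, h, by omega⟩
      rw [← Finset.sum_Ico_consecutive f (Nat.le_add_right A (k * W)) h1]
      exact (norm_add_le _ _).trans (add_le_add (hSL k hk hkn)
        (sum_bd f 5 _ _ B (by norm_num) (fun k _ _ => hf5 k) h2))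
    have hP1' : b K ≤ n → ‖∑ n' ∈ Finset.Ico A (b K), f n'‖ ≤ X + 5 * B := by
      intro hnb
      rw [← Finset.sum_Ico_consecutive f (Nat.le_add_right A (K * W)) hAK]
      exact (norm_add_le _ _).trans (add_le_add (hSL K le_rfl (hKn (hAK.trans hnb) le_rfl))
        (sum_bd f 5 _ _ B (by norm_num) (fun k _ _ => hf5 k) hAK'))
    -- the second part
    have hP2 : ∀ n₁, b K ≤ n₁ → n₁ ≤ b 0 → n₁ ≤ n →
        ‖∑ n' ∈ Finset.Ico A n₁, f n'‖ ≤ 3 * X + 10 * B := by
      intro n₁ h1 h2 h3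
      obtain ⟨k, hk, hkn, h4, h5⟩ : ∃ k, k ≤ K ∧ k ≤ n ∧ b k ≤ n₁ ∧ n₁ ≤ b k + B := by
        rcases lt_or_ge n₁ (b 0) with h | h
        · have h6 : r n₁ ≤ K := hr2 n₁ K (by rw [hb'le K le_rfl]; exact h1)
          have h7 := hr1 n₁ h1
          rw [hb'le _ h6] at h7
          have h8 : r n₁ ≠ 0 := by
            intro h0
            rw [h0] at h7
            omega
          have h9 := hr3 n₁ (r n₁ - 1) (by omega)
          rw [hb'le _ (by omega)] at h9
          have h10 := hbB (r n₁ - 1)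
          rw [Nat.sub_add_cancel (by omega)] at h10
          exact ⟨r n₁, h6, hKn (hAK.trans (h1.trans h3)) h6, h7, by omega⟩
        · exact ⟨0, Nat.zero_le _, Nat.zero_le _, h, by omega⟩
      have h6 : b K ≤ b k := hb hk
      have h7 : A ≤ b K := by omega
      rw [← Finset.sum_Ico_consecutive f h7 h1, ← Finset.sum_Ico_consecutive f h6 h4]
      have h8 : ∑ n' ∈ Finset.Ico (b K) (b k), f n' =
          ∑ n' ∈ Finset.Ico (b K) (b 0), f n' - ∑ n' ∈ Finset.Ico (b k) (b 0), f n' := by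
        rw [← Finset.sum_Ico_consecutive f h6 (hb (Nat.zero_le k)), add_sub_cancel_right]
      rw [h8]
      have e1 := hP1' (h1.trans h3)
      have e2 := hSR K le_rfl (hKn (hAK.trans (h1.trans h3)) le_rfl)
      have e3 := hSR k hk hkn
      have e4 := sum_bd f 5 (b k) n₁ B (by norm_num) (fun k _ _ => hf5 k) h5
      have e5 := norm_sub_le (∑ n' ∈ Finset.Ico (b K) (b 0), f n')
        (∑ n' ∈ Finset.Ico (b k) (b 0), f n')
      calc _ ≤ ‖∑ n' ∈ Finset.Ico A (b K), f n'‖ +
            ‖∑ n' ∈ Finset.Ico (b K) (b 0), f n' - ∑ n' ∈ Finset.Ico (b k) (b 0), f n' +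
              ∑ n' ∈ Finset.Ico (b k) n₁, f n'‖ := norm_add_le _ _
        _ ≤ ‖∑ n' ∈ Finset.Ico A (b K), f n'‖ +
            (‖∑ n' ∈ Finset.Ico (b K) (b 0), f n' - ∑ n' ∈ Finset.Ico (b k) (b 0), f n'‖ +
              ‖∑ n' ∈ Finset.Ico (b k) n₁, f n'‖) := by
            gcongr
            exact norm_add_le _ _
        _ ≤ 3 * X + 10 * B := by linarith
    -- everything
    have htot : ‖∑ n' ∈ Finset.Ico A n, f n'‖ ≤
        3 * X + 10 * B + 5 * (n : ℝ) ^ (1 / 2 + δ) := by
      have hBr : (0 : ℝ) ≤ B := Nat.cast_nonneg B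
      rcases le_total n (b K) with h1 | h1
      · have := hP1 h1
        linarith
      rcases le_total n (b 0) with h2 | h2
      · have := hP2 n h1 h2 le_rfl
        linarith
      have h3 : A ≤ b 0 := by
        have := hb (Nat.zero_le K)
        omega
      have h4 : b K ≤ b 0 := hb (Nat.zero_le K)
      rw [← Finset.sum_Ico_consecutive f h3 h2]
      have e1 := hP2 (b 0) h4 le_rfl h2
      have e2 := sum_bd f 1 (b 0) n (n - b 0) (by norm_num) (fun k hk1 hk2 => by
        have h5 : c k = 0 := hG k (by omega) (Or.inr hk1)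
        have h6 := avg3 m (c k) k (θ k)
        rw [h5] at h6
        have h7 : f k = cs m (c k) (θ k) k - ci m k := rfl
        rw [h7, h5]
        have h8 := norm_sub_le (cs m 0 (θ k) k) (ci m k)
        have h9 := avg4 m k
        rw [Nat.cast_zero] at h6
        linarith) (by omega)
      have e3 : ((n - b 0 : ℕ) : ℝ) ≤ 5 * tt A := by
        rw [Nat.cast_sub h2]
        have : (n : ℝ) ≤ e := by exact_mod_cast hne
        linarith
      have e4 : tt A ≤ (n : ℝ) ^ (1 / 2 + δ) := by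
        have h5 : tt A ^ 2 ≤ (n : ℝ) := by
          have : (b K : ℝ) ≤ n := by exact_mod_cast h1
          linarith
        have h6 : tt A = (tt A ^ 2) ^ (1 / 2 : ℝ) := by
          rw [← Real.sqrt_eq_rpow, Real.sqrt_sq (by linarith)]
        calc tt A = (tt A ^ 2) ^ (1 / 2 : ℝ) := h6
          _ ≤ (n : ℝ) ^ (1 / 2 : ℝ) := Real.rpow_le_rpow (by positivity) h5 (by norm_num)
          _ ≤ (n : ℝ) ^ (1 / 2 + δ) := Real.rpow_le_rpow_of_exponent_le
              (by exact_mod_cast hA1.trans hn) (by linarith)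
      have e5 := norm_add_le (∑ n' ∈ Finset.Ico A (b 0), f n') (∑ n' ∈ Finset.Ico (b 0) n, f n')
      linarith
    refine htot.trans ?_
    set Lg : ℝ := Real.log (tt A) ^ 2 with hLg
    set N : ℝ := (n : ℝ) ^ (1 / 2 + δ) with hN
    have hH1 : 1 ≤ H + 1 := by linarith
    have a1 : 1 ≤ (H + 1) * Lg := one_le_mul_of_one_le_of_one_le hH1 hlog
    have a2 : 1 ≤ N * LL m := one_le_mul_of_one_le_of_one_le hn1 hLm
    have a3 : X ≤ CC₁ δ * C₂ * ((H + 1) * Lg) * (N * LL m) := by
      rw [hX]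
      have h1 : CC₁ δ * B ≤ CC₁ δ * (C₂ * (H + 1) * Lg) :=
        mul_le_mul_of_nonneg_left hB (hCC₁ δ)
      calc CC₁ δ * B * N * LL m = CC₁ δ * B * (N * LL m) := by ring
        _ ≤ CC₁ δ * (C₂ * (H + 1) * Lg) * (N * LL m) :=
            mul_le_mul_of_nonneg_right h1 (by linarith)
        _ = _ := by ring
    have a4 : (B : ℝ) ≤ C₂ * ((H + 1) * Lg) * (N * LL m) := by
      have h1 : 0 ≤ C₂ * ((H + 1) * Lg) := mul_nonneg hC₂ (by linarith)
      calc (B : ℝ) ≤ C₂ * (H + 1) * Lg := hB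
        _ = C₂ * ((H + 1) * Lg) * 1 := by ring
        _ ≤ _ := mul_le_mul_of_nonneg_left a2 h1
    have a5 : N ≤ ((H + 1) * Lg) * (N * LL m) := by
      have h1 : 0 ≤ N := by linarith
      calc N = 1 * (N * 1) := by ring
        _ ≤ ((H + 1) * Lg) * (N * LL m) :=
            mul_le_mul a1 (mul_le_mul_of_nonneg_left hLm h1) (by linarith) (by linarith)
    calc 3 * X + 10 * B + 5 * N ≤ 3 * (CC₁ δ * C₂ * ((H + 1) * Lg) * (N * LL m)) +
          10 * (C₂ * ((H + 1) * Lg) * (N * LL m)) + 5 * (((H + 1) * Lg) * (N * LL m)) := by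
          linarith
      _ = _ := by ring

end

end Pool.Agent.H68.GB
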