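import Pool.Agent.H68.GB.Stm

set_option autoImplicit false

/-!
# The random choice in one scale
-/

namespace Pool.Agent.H68.GB

open MeasureTheory Filter Topology Set Pool.Agent.H49.BP

namespace Stp

noncomputable section

/-- Lebesgue measure on `(0, 1]` -/
def mu0 : Measure ℝ := volume.restrict (Ioc 0 1)

instance : IsProbabilityMeasure mu0 := ⟨by
  rw [mu0, Measure.restrict_apply MeasurableSet.univ, univ_inter, Real.volume_Ioc]
  simp⟩

/-- the sign -/
def sg (x : ℝ) : Bool := decide (x ≤ 1 / 2)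

/-- the place -/
def th (x : ℝ) : ℝ := if x ≤ 1 / 2 then 2 * x else 2 * x - 1

theorem meas_comp {f : Bool → ℝ → ℂ} (hf : ∀ s, Measurable (f s)) :
    Measurable fun x => f (sg x) (th x) := by
  have h1 : (fun x => f (sg x) (th x)) =
      fun x => if x ≤ 1 / 2 then f true (2 * x) else f false (2 * x - 1) := by
    funext x
    unfold sg th
    by_cases hx : x ≤ 1 / 2
    · simp only [if_pos hx, decide_eq_true hx]
    · simp only [if_neg hx, decide_eq_false hx]
  rw [h1]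
  refine Measurable.ite measurableSet_Iic ?_ ?_
  · exact (hf true).comp (by fun_prop)
  · exact (hf false).comp (by fun_prop)

theorem mean {f : Bool → ℝ → ℂ} (hf : ∀ s, Measurable (f s)) {K : ℝ}
    (hK : ∀ s x, ‖f s x‖ ≤ K) : ∫ x, f (sg x) (th x) ∂mu0 =
      (1 / 2 : ℂ) * ((∫ θ in (0 : ℝ)..1, f true θ) + ∫ θ in (0 : ℝ)..1, f false θ) := by
  have hm := meas_comp hf
  have hint : ∀ a b : ℝ, IntervalIntegrable (fun x => f (sg x) (th x)) volume a b := by
    intro a b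
    have h1 : IntervalIntegrable (fun _ : ℝ => K) volume a b := intervalIntegrable_const
    exact h1.mono_fun hm.aestronglyMeasurable (Filter.Eventually.of_forall fun x =>
      (hK _ _).trans (le_abs_self K))
  have h0 : ∫ x, f (sg x) (th x) ∂mu0 = ∫ x in (0 : ℝ)..1, f (sg x) (th x) := by
    rw [intervalIntegral.integral_of_le zero_le_one]
    rfl
  rw [h0, ← intervalIntegral.integral_add_adjacent_intervals (hint 0 (1 / 2)) (hint (1 / 2) 1)]
  have h1 : ∫ x in (0 : ℝ)..(1 / 2), f (sg x) (th x) = ∫ x in (0 : ℝ)..(1 / 2), f true (2 * x) := by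
    rw [intervalIntegral.integral_of_le (by norm_num), intervalIntegral.integral_of_le (by norm_num)]
    refine setIntegral_congr_fun measurableSet_Ioc fun x hx => ?_
    have hx2 : x ≤ 1 / 2 := hx.2
    simp only [sg, th, if_pos hx2, decide_eq_true hx2]
  have h2 : ∫ x in (1 / 2 : ℝ)..1, f (sg x) (th x) =
      ∫ x in (1 / 2 : ℝ)..1, f false (2 * x - 1) := by
    rw [intervalIntegral.integral_of_le (by norm_num), intervalIntegral.integral_of_le (by norm_num)]
    refine setIntegral_congr_fun measurableSet_Ioc fun x hx => ?_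
    have hx2 : ¬ x ≤ 1 / 2 := not_le.2 hx.1
    simp only [sg, th, if_neg hx2, decide_eq_false hx2]
  rw [h1, h2, intervalIntegral.integral_comp_mul_left (fun x => f true x) (by norm_num : (2 : ℝ) ≠ 0),
    intervalIntegral.integral_comp_mul_sub (fun x => f false x) (by norm_num : (2 : ℝ) ≠ 0)]
  norm_num
  ring

/-- real and imaginary part -/
def part (c : Bool) (z : ℂ) : ℝ := if c then z.re else z.im

theorem part_abs (c : Bool) (z : ℂ) : |part c z| ≤ ‖z‖ := by
  unfold part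
  cases c
  · simpa using Complex.abs_im_le_norm z
  · simpa using Complex.abs_re_le_norm z

theorem part_meas (c : Bool) {α : Type} [MeasurableSpace α] {f : α → ℂ} (hf : Measurable f) :
    Measurable fun x => part c (f x) := by
  unfold part
  cases c
  · exact (Complex.measurable_im.comp hf : Measurable fun x => (f x).im)
  · exact (Complex.measurable_re.comp hf : Measurable fun x => (f x).re)

theorem part_sum (c : Bool) {ι : Type} (s : Finset ι) (f : ι → ℂ) :
    part c (∑ i ∈ s, f i) = ∑ i ∈ s, part c (f i) := by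
  unfold part
  cases c
  · simp
  · simp

theorem part_integral (c : Bool) {f : ℝ → ℂ} (hf : Integrable f mu0) (h0 : ∫ x, f x ∂mu0 = 0) :
    ∫ x, part c (f x) ∂mu0 = 0 := by
  unfold part
  cases c
  · have h1 := integral_im (𝕜 := ℂ) hf
    simp only [Bool.false_eq_true, if_false]
    refine Eq.trans h1 ?_
    rw [h0]
    simp
  · have h1 := integral_re (𝕜 := ℂ) hf
    simp only [if_true]
    refine Eq.trans h1 ?_
    rw [h0]
    simp

theorem norm_le_parts (z : ℂ) {a : ℝ} (h : ∀ c, |part c z| ≤ a) : ‖z‖ ≤ 2 * a := by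
  have h1 := Complex.norm_le_abs_re_add_abs_im z
  have h2 : |z.re| ≤ a := by simpa [part] using h true
  have h3 : |z.im| ≤ a := by simpa [part] using h false
  linarith

theorem summ : Summable fun k : ℤ × Bool × Bool => 1 / (|(k.1 : ℝ)| + 3) ^ 2 := by
  have h1 : Summable fun n : ℕ => 1 / ((n : ℝ) + 3) ^ 2 := by
    have h2 : Summable fun n : ℕ => 1 / (n : ℝ) ^ 2 := Real.summable_one_div_nat_pow.2 (by norm_num)
    have h3 := (summable_nat_add_iff 3).2 h2
    refine h3.congr fun n => ?_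
    push_cast
    rfl
  have h2 : Summable fun m : ℤ => 1 / (|(m : ℝ)| + 3) ^ 2 := by
    rw [summable_int_iff_summable_nat_and_neg]
    constructor
    · refine h1.congr fun n => ?_
      push_cast
      rw [abs_of_nonneg (Nat.cast_nonneg n : (0 : ℝ) ≤ n)]
    · refine h1.congr fun n => ?_
      push_cast
      rw [abs_neg, abs_of_nonneg (Nat.cast_nonneg n : (0 : ℝ) ≤ n)]
  have h3 : Summable fun x : ℤ × (Bool × Bool) => (1 / (|(x.1 : ℝ)| + 3) ^ 2) * (1 : ℝ) :=
    Summable.mul_of_nonneg (g := fun _ : Bool × Bool => (1 : ℝ)) h2 Summable.of_finite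
      (fun _ => by positivity) (fun _ => zero_le_one)
  simpa using h3

theorem LL_ge (m : ℤ) : 1 ≤ LL m := by
  unfold LL
  rw [Real.one_le_sqrt, Real.le_log_iff_exp_le (by positivity)]
  have := Real.exp_one_lt_d9
  have h2 := abs_nonneg (m : ℝ)
  linarith

/-- the left sums -/
def gl (A W : ℕ) (m : ℤ) (k : ℕ) (θ : ℝ) : ℂ :=
  ∑ n ∈ Finset.Ico (A + k * W) (A + (k + 1) * W), cs m 4 θ n

def il (A W : ℕ) (m : ℤ) (k : ℕ) : ℂ :=
  ∑ n ∈ Finset.Ico (A + k * W) (A + (k + 1) * W), ci m n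

/-- the right sums -/
def gr (b : ℕ → ℕ) (m : ℤ) (k : ℕ) (θ : ℝ) : ℂ :=
  ∑ n ∈ Finset.Ico (b (k + 1)) (b k), cs m 2 θ n

def ir (b : ℕ → ℕ) (m : ℤ) (k : ℕ) : ℂ :=
  ∑ n ∈ Finset.Ico (b (k + 1)) (b k), ci m n

/-- the left test -/
def fl (g : ℝ → ℂ) (I I' : ℂ) (B : ℝ) (p s : Bool) (θ : ℝ) : ℂ :=
  ((if p && s then g θ else 0) - (if p then 2 * I else 0) + (if s then I' else -I')) / (9 * B)

/-- the right test -/
def fr (g : ℝ → ℂ) (I : ℂ) (B : ℝ) (s : Bool) (θ : ℝ) : ℂ :=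
  ((if s then 0 else g θ) - I) / (9 * B)

theorem norm_den {B : ℝ} (hB : 0 < B) : ‖(9 * B : ℂ)‖ = 9 * B := by
  rw [norm_mul, Complex.norm_real, Real.norm_of_nonneg hB.le]
  norm_num

theorem fl_norm {g : ℝ → ℂ} {I I' : ℂ} {B : ℝ} (hB : 0 < B) (hg : ∀ θ, ‖g θ‖ ≤ 4 * B)
    (hI : ‖I‖ ≤ B) (hI' : ‖I'‖ ≤ B) (p s : Bool) (θ : ℝ) : ‖fl g I I' B p s θ‖ ≤ 1 := by
  unfold fl
  rw [norm_div, norm_den hB, div_le_one (by positivity)]
  have h1 : ‖(if p && s then g θ else 0 : ℂ)‖ ≤ 4 * B := by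
    split_ifs
    · exact hg θ
    · rw [norm_zero]; positivity
  have h2 : ‖(if p then 2 * I else 0 : ℂ)‖ ≤ 2 * B := by
    split_ifs
    · rw [norm_mul]
      norm_num
      exact hI
    · rw [norm_zero]; positivity
  have h3 : ‖(if s then I' else -I' : ℂ)‖ ≤ B := by
    split_ifs
    · exact hI'
    · rw [norm_neg]; exact hI'
  refine (norm_add_le _ _).trans ((add_le_add (norm_sub_le _ _) le_rfl).trans ?_)
  linarith

theorem fr_norm {g : ℝ → ℂ} {I : ℂ} {B : ℝ} (hB : 0 < B) (hg : ∀ θ, ‖g θ‖ ≤ 2 * B)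
    (hI : ‖I‖ ≤ B) (s : Bool) (θ : ℝ) : ‖fr g I B s θ‖ ≤ 1 := by
  unfold fr
  rw [norm_div, norm_den hB, div_le_one (by positivity)]
  have h1 : ‖(if s then 0 else g θ : ℂ)‖ ≤ 2 * B := by
    split_ifs
    · rw [norm_zero]; positivity
    · exact hg θ
  refine (norm_sub_le _ _).trans ?_
  linarith

theorem fl_meas {g : ℝ → ℂ} (hg : Measurable g) (I I' : ℂ) (B : ℝ) (p s : Bool) :
    Measurable (fl g I I' B p s) := by
  unfold fl
  cases p <;> cases s <;> simp <;> fun_prop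

theorem fr_meas {g : ℝ → ℂ} (hg : Measurable g) (I : ℂ) (B : ℝ) (s : Bool) :
    Measurable (fr g I B s) := by
  unfold fr
  cases s <;> simp <;> fun_prop

theorem intg {g : ℝ → ℂ} (hg : Measurable g) {K : ℝ} (hK : ∀ x, ‖g x‖ ≤ K) (a b : ℝ) :
    IntervalIntegrable g volume a b := by
  have h1 : IntervalIntegrable (fun _ : ℝ => K) volume a b := intervalIntegrable_const
  exact h1.mono_fun hg.aestronglyMeasurable (Filter.Eventually.of_forall fun x =>
    (hK _).trans (le_abs_self K))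

theorem fl_mean {g : ℝ → ℂ} (hgm : Measurable g) {I I' : ℂ} {B : ℝ} (hB : 0 < B)
    (hg : ∀ θ, ‖g θ‖ ≤ 4 * B) (hI : ‖I‖ ≤ B) (hI' : ‖I'‖ ≤ B)
    (hint : ∫ θ in (0 : ℝ)..1, g θ = 4 * I) (p : Bool) :
    ∫ x, fl g I I' B p (sg x) (th x) ∂mu0 = 0 := by
  rw [mean (fl_meas hgm I I' B p) (fl_norm hB hg hI hI' p)]
  have hgi := intg hgm hg 0 1
  have h1 : ∀ s, ∫ θ in (0 : ℝ)..1, fl g I I' B p s θ =
      ((if p && s then 4 * I else 0) - (if p then 2 * I else 0) + (if s then I' else -I')) /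
        (9 * B) := by
    intro s
    unfold fl
    rw [intervalIntegral.integral_div, intervalIntegral.integral_add _ intervalIntegrable_const,
      intervalIntegral.integral_sub _ intervalIntegrable_const]
    · cases p <;> cases s <;> simp [hint]
    · cases p <;> cases s <;> simp <;> exact hgi
    · cases p <;> cases s <;> simp
      exact hgi.sub intervalIntegrable_const
  rw [h1, h1]
  cases p <;> simp <;> ring

theorem fr_mean {g : ℝ → ℂ} (hgm : Measurable g) {I : ℂ} {B : ℝ} (hB : 0 < B)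
    (hg : ∀ θ, ‖g θ‖ ≤ 2 * B) (hI : ‖I‖ ≤ B)
    (hint : ∫ θ in (0 : ℝ)..1, g θ = 2 * I) :
    ∫ x, fr g I B (sg x) (th x) ∂mu0 = 0 := by
  rw [mean (fr_meas hgm I B) (fr_norm hB hg hI)]
  have hgi := intg hgm hg 0 1
  have h1 : ∀ s, ∫ θ in (0 : ℝ)..1, fr g I B s θ =
      ((if s then 0 else 2 * I) - I) / (9 * B) := by
    intro s
    unfold fr
    rw [intervalIntegral.integral_div, intervalIntegral.integral_sub _ intervalIntegrable_const]
    · cases s <;> simp [hint]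
    · cases s <;> simp
      exact hgi
  rw [h1, h1]
  simp
  ring

theorem good {x : ℝ} (hx : x ∈ {x : ℝ | x ∈ Ioo (0 : ℝ) 1 ∧ x ≠ 1 / 2}) : 0 ≤ th x ∧ th x < 1 := by
  obtain ⟨⟨h0, h1⟩, h2⟩ := hx
  unfold th
  by_cases h : x ≤ 1 / 2
  · rw [if_pos h]
    have h3 : x < 1 / 2 := lt_of_le_of_ne h h2
    constructor <;> linarith
  · rw [if_neg h]
    push Not at h
    constructor <;> linarith

theorem mu0_compl : mu0 {x : ℝ | x ∈ Ioo (0 : ℝ) 1 ∧ x ≠ 1 / 2}ᶜ = 0 := by
  have hms : MeasurableSet {x : ℝ | x ∈ Ioo (0 : ℝ) 1 ∧ x ≠ 1 / 2} :=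
    measurableSet_Ioo.inter (measurableSet_singleton (1 / 2 : ℝ)).compl
  rw [mu0, Measure.restrict_apply hms.compl]
  refine measure_mono_null (t := {1 / 2, 1}) ?_ ((Set.toFinite _).measure_zero _)
  rintro x ⟨h1, h2⟩
  by_contra hcon
  rw [mem_insert_iff, mem_singleton_iff, not_or] at hcon
  exact h1 ⟨⟨h2.1, lt_of_le_of_ne h2.2 hcon.2⟩, hcon.1⟩

section sums

variable (avg : S_AVG)

include avg

theorem gl_meas (A W : ℕ) (m : ℤ) (k : ℕ) : Measurable (gl A W m k) := by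
  unfold gl
  exact Finset.measurable_sum _ fun n _ => avg.1 m 4 n

theorem gr_meas (b : ℕ → ℕ) (m : ℤ) (k : ℕ) : Measurable (gr b m k) := by
  unfold gr
  exact Finset.measurable_sum _ fun n _ => avg.1 m 2 n

theorem gl_norm {A W B : ℕ} (hWB : W ≤ B) (m : ℤ) (k : ℕ) (θ : ℝ) :
    ‖gl A W m k θ‖ ≤ 4 * (B : ℝ) := by
  unfold gl
  refine (norm_sum_le_of_le _ fun n _ => avg.2.2.1 m 4 n θ).trans ?_
  rw [Finset.sum_const, Nat.card_Ico, nsmul_eq_mul]
  have h1 : A + (k + 1) * W - (A + k * W) = W := by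
    rw [add_mul, one_mul]
    omega
  rw [h1]
  have h2 : (W : ℝ) ≤ B := by exact_mod_cast hWB
  push_cast
  linarith

theorem il_norm {A W B : ℕ} (hWB : W ≤ B) (m : ℤ) (k : ℕ) : ‖il A W m k‖ ≤ (B : ℝ) := by
  unfold il
  refine (norm_sum_le_of_le _ fun n _ => avg.2.2.2 m n).trans ?_
  rw [Finset.sum_const, Nat.card_Ico, nsmul_eq_mul, mul_one]
  have h1 : A + (k + 1) * W - (A + k * W) = W := by
    rw [add_mul, one_mul]
    omega
  rw [h1]
  exact_mod_cast hWB

theorem gr_norm {b : ℕ → ℕ} {B : ℕ} (hb : ∀ k, b k ≤ b (k + 1) + B) (m : ℤ) (k : ℕ) (θ : ℝ) :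
    ‖gr b m k θ‖ ≤ 2 * (B : ℝ) := by
  unfold gr
  refine (norm_sum_le_of_le _ fun n _ => avg.2.2.1 m 2 n θ).trans ?_
  rw [Finset.sum_const, Nat.card_Ico, nsmul_eq_mul]
  have h1 : ((b k - b (k + 1) : ℕ) : ℝ) ≤ B := by
    have := hb k
    exact_mod_cast (by omega : b k - b (k + 1) ≤ B)
  push_cast at h1 ⊢
  linarith

theorem ir_norm {b : ℕ → ℕ} {B : ℕ} (hb : ∀ k, b k ≤ b (k + 1) + B) (m : ℤ) (k : ℕ) :
    ‖ir b m k‖ ≤ (B : ℝ) := by
  unfold ir
  refine (norm_sum_le_of_le _ fun n _ => avg.2.2.2 m n).trans ?_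
  rw [Finset.sum_const, Nat.card_Ico, nsmul_eq_mul, mul_one]
  have := hb k
  exact_mod_cast (by omega : b k - b (k + 1) ≤ B)

theorem gl_int {A : ℕ} (hA : 1 ≤ A) (W : ℕ) (m : ℤ) (k : ℕ) :
    ∫ θ in (0 : ℝ)..1, gl A W m k θ = 4 * il A W m k := by
  unfold gl il
  rw [intervalIntegral.integral_finset_sum fun n _ => intg (avg.1 m 4 n)
    (fun θ => avg.2.2.1 m 4 n θ) 0 1, Finset.mul_sum]
  refine Finset.sum_congr rfl fun n hn => ?_
  rw [avg.2.1 m 4 n (by norm_num) (by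
    have := (Finset.mem_Ico.1 hn).1
    omega)]
  push_cast
  rfl

theorem gr_int {b : ℕ → ℕ} (hb1 : ∀ k, 1 ≤ b k) (m : ℤ) (k : ℕ) :
    ∫ θ in (0 : ℝ)..1, gr b m k θ = 2 * ir b m k := by
  unfold gr ir
  rw [intervalIntegral.integral_finset_sum fun n _ => intg (avg.1 m 2 n)
    (fun θ => avg.2.2.1 m 2 n θ) 0 1, Finset.mul_sum]
  refine Finset.sum_congr rfl fun n hn => ?_
  rw [avg.2.1 m 2 n (by norm_num) (by
    have := (Finset.mem_Ico.1 hn).1
    have := hb1 (k + 1)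
    omega)]
  push_cast
  rfl

end sums

theorem cs_zero (m : ℤ) (θ : ℝ) (n : ℕ) : cs m 0 θ n = 0 := by
  simp [cs]

theorem bd_intg {f : ℝ → ℂ} (hf : Measurable f) (h : ∀ x, ‖f x‖ ≤ 1) : Integrable f mu0 :=
  Integrable.of_bound hf.aestronglyMeasurable 1 (Filter.Eventually.of_forall h)

end

end Stp


open Stp in
theorem t_STP (inv : S_INV) (avg : S_AVG) (drh : S_DRH) : S_STP := by
  obtain ⟨CC, hCC, hD⟩ := drh ℝ (ℤ × Bool × Bool) mu0
    {x : ℝ | x ∈ Ioo (0 : ℝ) 1 ∧ x ≠ 1 / 2} (fun k => |(k.1 : ℝ)|) mu0_compl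
    (fun k => abs_nonneg _) summ
  refine ⟨fun δ => 18 * CC δ + 2, fun δ => by have := hCC δ; linarith, ?_⟩
  intro A W B b hA hW hWB _ hb1 hb
  have hB : (0 : ℝ) < B := by
    have : 0 < B := by omega
    exact_mod_cast this
  -- the tests
  let Z : ℕ → ℤ → Bool → ℝ → ℝ → ℂ := fun j m d y x =>
    if d then fl (gl A W m j) (il A W m j) (il A W m (j + 1)) B (sg y) (sg x) (th x)
    else fr (gr b m j) (ir b m j) B (sg x) (th x)
  have hZm : ∀ j m d y, Measurable (Z j m d y) := by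
    intro j m d y
    cases d
    · exact meas_comp (fr_meas (gr_meas avg b m j) _ _)
    · exact meas_comp (fl_meas (gl_meas avg A W m j) _ _ _ _)
  have hZn : ∀ j m d y x, ‖Z j m d y x‖ ≤ 1 := by
    intro j m d y x
    cases d
    · exact fr_norm hB (gr_norm avg hb m j) (ir_norm avg hb m j) _ _
    · exact fl_norm hB (gl_norm avg hWB m j) (il_norm avg hWB m j) (il_norm avg hWB m (j + 1))
        _ _ _
  have hZ0 : ∀ j m d y, ∫ x, Z j m d y x ∂mu0 = 0 := by
    intro j m d y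
    cases d
    · exact fr_mean (gr_meas avg b m j) hB (gr_norm avg hb m j) (ir_norm avg hb m j)
        (gr_int avg hb1 m j)
    · exact fl_mean (gl_meas avg A W m j) hB (gl_norm avg hWB m j) (il_norm avg hWB m j)
        (il_norm avg hWB m (j + 1)) (gl_int avg hA W m j) _
  obtain ⟨ω, hω, hωs⟩ := hD (fun j k y x => part k.2.1 (Z j k.1 k.2.2 y x))
    (fun j k y => part_meas _ (hZm j k.1 k.2.2 y))
    (fun j k y x => (part_abs _ _).trans (hZn j k.1 k.2.2 y x))
    (fun j k y => part_integral _ (bd_intg (hZm _ _ _ _) (hZn _ _ _ _)) (hZ0 _ _ _ _))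
  have hsum : ∀ δ : ℝ, 0 < δ → ∀ (m : ℤ) (d : Bool) (J : ℕ),
      ‖∑ j ∈ Finset.range J, Z j m d (ω j) (ω (j + 1))‖ ≤
        2 * (CC δ * (J : ℝ) ^ (1 / 2 + δ) * LL m) := by
    intro δ hδ m d J
    apply norm_le_parts
    intro c
    rw [part_sum]
    exact hωs δ hδ (m, c, d) J
  refine ⟨fun k => sg (ω k), fun k => th (ω (k + 1)), fun k => good (hω (k + 1)),
    fun δ hδ m J => ⟨?_, ?_⟩⟩
  · -- left
    rcases Nat.eq_zero_or_pos J with hJ | hJ
    · subst hJ
      have h1 := hCC δ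
      have h2 := LL_ge m
      rw [Finset.sum_range_zero, norm_zero]
      positivity
    have hX : ∀ k, ∑ n ∈ Finset.Ico (A + k * W) (A + (k + 1) * W),
        (cs m (if sg (ω k) && sg (ω (k + 1)) then 4 else 0) (th (ω (k + 1))) n - ci m n) =
        (9 * B : ℂ) * Z k m true (ω k) (ω (k + 1)) +
          ((if sg (ω k) then il A W m k else -il A W m k) -
            (if sg (ω (k + 1)) then il A W m (k + 1) else -il A W m (k + 1))) := by
      intro k
      rw [Finset.sum_sub_distrib]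
      show _ = (9 * B : ℂ) * fl (gl A W m k) (il A W m k) (il A W m (k + 1)) B (sg (ω k))
        (sg (ω (k + 1))) (th (ω (k + 1))) + _
      have hB0 : (9 * B : ℂ) ≠ 0 := by
        have : (B : ℂ) ≠ 0 := by exact_mod_cast hB.ne'
        exact mul_ne_zero (by norm_num) this
      unfold fl
      have e1 : ∑ n ∈ Finset.Ico (A + k * W) (A + (k + 1) * W), ci m n = il A W m k := rfl
      have e2 : ∑ n ∈ Finset.Ico (A + k * W) (A + (k + 1) * W),
          cs m 4 (th (ω (k + 1))) n = gl A W m k (th (ω (k + 1))) := rfl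
      rw [e1]
      push_cast
      rw [mul_div_cancel₀ _ hB0]
      cases h1 : sg (ω k) <;> cases h2 : sg (ω (k + 1)) <;>
        simp only [Bool.and_true, Bool.and_false, Bool.true_and, Bool.false_and, if_true, if_false,
          Bool.false_eq_true, cs_zero, Finset.sum_const_zero, e2] <;> ring
    rw [Finset.sum_congr rfl fun k _ => hX k, Finset.sum_add_distrib, ← Finset.mul_sum,
      Finset.sum_range_sub' (fun k => if sg (ω k) then il A W m k else -il A W m k)]
    have hI : ∀ k, ‖(if sg (ω k) then il A W m k else -il A W m k : ℂ)‖ ≤ (B : ℝ) := by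
      intro k
      split_ifs
      · exact il_norm avg hWB m k
      · rw [norm_neg]
        exact il_norm avg hWB m k
    refine (norm_add_le _ _).trans ((add_le_add le_rfl (norm_sub_le _ _)).trans ?_)
    rw [norm_mul]
    have hn9 : ‖(9 * B : ℂ)‖ = 9 * (B : ℝ) := by
      have := norm_den hB
      push_cast at this ⊢
      exact this
    rw [hn9]
    have h1 := hsum δ hδ m true J
    have h2 : 9 * (B : ℝ) * ‖∑ j ∈ Finset.range J, Z j m true (ω j) (ω (j + 1))‖ ≤
        9 * B * (2 * (CC δ * (J : ℝ) ^ (1 / 2 + δ) * LL m)) :=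
      mul_le_mul_of_nonneg_left h1 (by positivity)
    have h3 : (1 : ℝ) ≤ (J : ℝ) ^ (1 / 2 + δ) :=
      Real.one_le_rpow (by exact_mod_cast hJ) (by linarith)
    have h4 := LL_ge m
    have h5 : (1 : ℝ) ≤ (J : ℝ) ^ (1 / 2 + δ) * LL m := by nlinarith
    have h6 : (B : ℝ) + B ≤ 2 * B * ((J : ℝ) ^ (1 / 2 + δ) * LL m) := by nlinarith
    calc _ ≤ 9 * B * (2 * (CC δ * (J : ℝ) ^ (1 / 2 + δ) * LL m)) + (B + B) :=
          add_le_add h2 (add_le_add (hI 0) (hI J))
      _ ≤ 9 * B * (2 * (CC δ * (J : ℝ) ^ (1 / 2 + δ) * LL m)) +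
          2 * B * ((J : ℝ) ^ (1 / 2 + δ) * LL m) := by linarith
      _ = (18 * CC δ + 2) * B * (J : ℝ) ^ (1 / 2 + δ) * LL m := by ring
  · -- right
    have hX : ∀ k, ∑ n ∈ Finset.Ico (b (k + 1)) (b k),
        (cs m (if sg (ω (k + 1)) then 0 else 2) (th (ω (k + 1))) n - ci m n) =
        (9 * B : ℂ) * Z k m false (ω k) (ω (k + 1)) := by
      intro k
      rw [Finset.sum_sub_distrib]
      show _ = (9 * B : ℂ) * fr (gr b m k) (ir b m k) B (sg (ω (k + 1))) (th (ω (k + 1)))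
      have hB0 : (9 * B : ℂ) ≠ 0 := by
        have : (B : ℂ) ≠ 0 := by exact_mod_cast hB.ne'
        exact mul_ne_zero (by norm_num) this
      unfold fr
      have e1 : ∑ n ∈ Finset.Ico (b (k + 1)) (b k), ci m n = ir b m k := rfl
      have e2 : ∑ n ∈ Finset.Ico (b (k + 1)) (b k),
          cs m 2 (th (ω (k + 1))) n = gr b m k (th (ω (k + 1))) := rfl
      rw [e1]
      push_cast
      rw [mul_div_cancel₀ _ hB0]
      cases h2 : sg (ω (k + 1)) <;>
        simp only [if_true, if_false, Bool.false_eq_true, cs_zero, Finset.sum_const_zero, e2]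
    rw [Finset.sum_congr rfl fun k _ => hX k, ← Finset.mul_sum, norm_mul]
    have hn9 : ‖(9 * B : ℂ)‖ = 9 * (B : ℝ) := by
      have := norm_den hB
      push_cast at this ⊢
      exact this
    rw [hn9]
    have h1 := hsum δ hδ m false J
    have h2 : 9 * (B : ℝ) * ‖∑ j ∈ Finset.range J, Z j m false (ω j) (ω (j + 1))‖ ≤
        9 * B * (2 * (CC δ * (J : ℝ) ^ (1 / 2 + δ) * LL m)) :=
      mul_le_mul_of_nonneg_left h1 (by positivity)
    have h3 : (0 : ℝ) ≤ (J : ℝ) ^ (1 / 2 + δ) := by positivity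
    have h4 := LL_ge m
    have h6 : 0 ≤ 2 * B * ((J : ℝ) ^ (1 / 2 + δ) * LL m) := by positivity
    refine h2.trans ?_
    calc 9 * (B : ℝ) * (2 * (CC δ * (J : ℝ) ^ (1 / 2 + δ) * LL m))
        ≤ 9 * B * (2 * (CC δ * (J : ℝ) ^ (1 / 2 + δ) * LL m)) +
          2 * B * ((J : ℝ) ^ (1 / 2 + δ) * LL m) := by linarith
      _ = (18 * CC δ + 2) * B * (J : ℝ) ^ (1 / 2 + δ) * LL m := by ring

end Pool.Agent.H68.GB
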