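import Pool.Agent.H68.GB.Drh
import Pool.Agent.H68.GB.Fin
import Pool.Agent.H68.GB.Geo
import Pool.Agent.H68.GB.Inv
import Pool.Agent.H68.GB.Avg
import Pool.Agent.H68.GB.Stp
import Pool.Agent.H68.GB.Scl
import Pool.Agent.H68.GB.Glu
import Pool.Agent.H68.GB.Enu

set_option autoImplicit false

/-! Project GB (helper68): assembly. -/

namespace Pool.Agent.H68.GB

open Pool.Agent.H49.BP

/-- the sequences of the theorem -/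
theorem system {h : ℝ → ℝ} (hh : ∀ ε : ℝ, 0 < ε → ∃ C : ℝ, ∀ x : ℝ, 1 ≤ x → h x ≤ C * x ^ ε) :
    ∃ q : ℕ → ℝ, StrictMono q ∧ (∀ j : ℕ, (j : ℝ) + 1 ≤ q j) ∧ 1 < q 0 ∧ Disc q ∧
      ∀ Y : ℝ, ∃ y : ℝ, Y ≤ y ∧ ∀ i j : ℕ, q i + q j < y ∨ y + h y < q i + q j :=
  main (t_GLU t_INV (t_AVG t_INV) (t_SCL t_INV (t_AVG t_INV) (t_STP t_INV (t_AVG t_INV) t_DRH) t_GEO))
    (t_ENU t_INV (t_AVG t_INV)) hh

end Pool.Agent.H68.GB
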