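import Pool.Agent.H68.GB.Stm

set_option autoImplicit false

/-! Project GB (helper68), module DRH: derandomisation where the tests may depend on the previous choice. -/

namespace Pool.Agent.H68.GB

open MeasureTheory Filter Topology Set Pool.Agent.H49.BP Pool.Agent.H73.KT Pool.Agent.H73.TR
open scoped ENNReal

theorem greedyH {Ω : Type} [MeasurableSpace Ω] {P : Type} [Countable P] (μ : Measure Ω) [IsProbabilityMeasure μ]
    (A : Set Ω) (hA : μ Aᶜ = 0) (Y : ℕ → P → Ω → Ω → ℝ) (a v : P → ℝ)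
    (hYm : ∀ j p y, Measurable (Y j p y)) (hYb : ∀ j p y x, |Y j p y x| ≤ 1)
    (hY0 : ∀ j p y, ∫ x, Y j p y x ∂μ = 0) (ha : ∀ p, 0 ≤ a p) (ha1 : ∀ p, a p ≤ 1)
    (hv : ∀ p, 0 < v p) (hvs : Summable v) :
    ∃ q : ℕ → Ω, (∀ j, q j ∈ A) ∧ ∀ (J : ℕ) (p : P),
      a p * ∑ j ∈ Finset.range J, Y j p (q j) (q (j + 1)) ≤ (a p) ^ 2 * J + Real.log ((∑' p, v p) / v p) := by
  have hne : ∃ x, x ∈ A := by
    by_contra h
    push Not at h
    have h1 : A = ∅ := by
      ext x
      simp [h x]
    rw [h1, compl_empty, measure_univ] at hA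
    exact one_ne_zero hA
  obtain ⟨x0, hx0⟩ := hne
  have hst : ∀ (J : ℕ) (S : P → ℝ) (y : Ω), ∃ x ∈ A, pot a v (J + 1) (fun p => S p + Y J p y x) ≤ pot a v J S := by
    intro J S y
    exact stepG (fun _ => μ) (fun _ => A) (fun _ p x => Y J p y x) a v (fun _ => hA) (fun _ p => hYm J p y)
      (fun _ p x => hYb J p y x) (fun _ p => hY0 J p y) ha ha1 J S
  choose ch hch1 hch2 using hst
  let st : ℕ → (P → ℝ) × Ω := fun J => Nat.rec (fun _ => 0, x0)
    (fun J s => (fun p => s.1 p + Y J p s.2 (ch J s.1 s.2), ch J s.1 s.2)) J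
  let q : ℕ → Ω := fun J => (st J).2
  have hS0 : (st 0).1 = fun _ => 0 := rfl
  have hq0 : q 0 = x0 := rfl
  have hq1 : ∀ J, q (J + 1) = ch J (st J).1 (st J).2 := fun J => rfl
  have hS1 : ∀ J, (st (J + 1)).1 = fun p => (st J).1 p + Y J p (q J) (q (J + 1)) := fun J => rfl
  have hpot : ∀ J, pot a v J (st J).1 ≤ ENNReal.ofReal (∑' p, v p) := by
    intro J
    induction J with
    | zero =>
      rw [hS0]
      unfold pot
      simp only [mul_zero, Nat.cast_zero, sub_zero, Real.exp_zero, mul_one]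
      rw [ENNReal.ofReal_tsum_of_nonneg (fun p => (hv p).le) hvs]
    | succ J ih =>
      rw [hS1]
      exact (hch2 J (st J).1 (st J).2).trans ih
  refine ⟨q, fun j => ?_, fun J p => ?_⟩
  · rcases j with _ | j
    · exact hx0
    · rw [hq1]
      exact hch1 j _ _
  have hsum : ∀ J p, (st J).1 p = ∑ j ∈ Finset.range J, Y j p (q j) (q (j + 1)) := by
    intro J p
    induction J with
    | zero => simp [hS0]
    | succ J ih => rw [hS1, Finset.sum_range_succ, ← ih]
  rw [← hsum]
  have h1 : ENNReal.ofReal (v p * Real.exp (a p * (st J).1 p - (a p) ^ 2 * J)) ≤ ENNReal.ofReal (∑' p, v p) :=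
    (ENNReal.le_tsum p).trans (hpot J)
  have hW : 0 < ∑' p, v p := hvs.tsum_pos (fun p => (hv p).le) p (hv p)
  rw [ENNReal.ofReal_le_ofReal_iff hW.le] at h1
  have h2 : Real.exp (a p * (st J).1 p - (a p) ^ 2 * J) ≤ (∑' p, v p) / v p := by
    rw [le_div_iff₀ (hv p)]
    linarith
  have h3 := Real.log_le_log (Real.exp_pos _) h2
  rw [Real.log_exp] at h3
  linarith

theorem t_DRH : S_DRH := by
  intro Ω _ _ κ _ μ _ A w hA hw hws
  rcases isEmpty_or_nonempty κ with hκ | hκ
  · refine ⟨fun _ => 0, fun _ => le_rfl, fun Y _ _ _ => ?_⟩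
    have hne : ∃ x, x ∈ A := by
      by_contra h
      push Not at h
      have h1 : A = ∅ := by
        ext x
        simp [h x]
      rw [h1, compl_empty, measure_univ] at hA
      exact one_ne_zero hA
    obtain ⟨x0, hx0⟩ := hne
    exact ⟨fun _ => x0, fun _ => hx0, fun δ _ k => (hκ.false k).elim⟩
  obtain ⟨k0⟩ := hκ
  have hwp : ∀ p : κ × Bool × ℕ, 0 < wgt w p := by
    intro p
    unfold wgt
    have := hw p.1
    positivity
  have hwsum : Summable (wgt w) := by
    have h6 : Summable fun k : ℕ => (1 / 2 : ℝ) ^ k := summable_geometric_two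
    have h7 : Summable fun x : Bool × ℕ => (1 : ℝ) * (1 / 2) ^ x.2 :=
      Summable.mul_of_nonneg (f := fun _ : Bool => (1 : ℝ)) (Summable.of_finite) h6 (fun _ => zero_le_one)
        (fun k => by positivity)
    have h9 : Summable fun x : κ × Bool × ℕ => (1 / (w x.1 + 3) ^ 2) * (1 * (1 / 2 : ℝ) ^ x.2.2) :=
      Summable.mul_of_nonneg hws h7 (fun _ => by positivity) (fun k => by positivity)
    refine h9.congr fun x => ?_
    unfold wgt
    ring
  set W := ∑' p, wgt w p with hW
  have hW0 : 0 < W := hwsum.tsum_pos (fun p => (hwp p).le) (k0, true, 0) (hwp _)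
  set C₀ := |Real.log W| + 2 with hC₀
  have hC₀0 : 0 ≤ C₀ := by positivity
  refine ⟨fun δ => |3 + C₀ + 1 / δ|, fun δ => abs_nonneg _, fun Y hYm hYb hY0 => ?_⟩
  obtain ⟨q, hq1, hq2⟩ := greedyH μ A hA (fun j p y x => sgn p.2.1 * Y j p.1 y x) (fun p : κ × Bool × ℕ => (1 / 2) ^ p.2.2)
    (wgt w) (fun j p y => (hYm j p.1 y).const_mul _) (fun j p y x => by
      rw [abs_mul, sgn_abs, one_mul]
      exact hYb j p.1 y x) (fun j p y => by
      rw [integral_const_mul, hY0, mul_zero])
    (fun p => by positivity) (fun p => pow_le_one₀ (by norm_num) (by norm_num)) hwp hwsum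
  refine ⟨q, hq1, fun δ hδ k J => ?_⟩
  have hD0 : 0 ≤ 3 + C₀ + 1 / δ := by positivity
  have hwk := hw k
  set L := Real.log (w k + 3) with hLdef
  have hL : 1 ≤ L := by
    rw [hLdef, Real.le_log_iff_exp_le (by positivity)]
    have := Real.exp_one_lt_d9
    linarith
  -- one test
  have hone : ∀ c : Bool, ∑ j ∈ Finset.range J, sgn c * Y j k (q j) (q (j + 1)) ≤
      (3 + C₀ + 1 / δ) * (J : ℝ) ^ (1 / 2 + δ) * √L := by
    intro c
    refine opt (Nat.cast_nonneg J) hL hC₀0 hδ ?_ ?_ ?_
    · rcases Nat.eq_zero_or_pos J with h | h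
      · left; exact_mod_cast h
      · right; exact_mod_cast h
    · calc ∑ j ∈ Finset.range J, sgn c * Y j k (q j) (q (j + 1)) ≤ ∑ j ∈ Finset.range J, (1 : ℝ) :=
            Finset.sum_le_sum fun j _ => (le_abs_self _).trans (by
              rw [abs_mul, sgn_abs, one_mul]
              exact hYb _ _ _ _)
        _ = J := by simp
    · intro r
      have h1 := hq2 J (k, c, r)
      simp only at h1
      set S := ∑ j ∈ Finset.range J, sgn c * Y j k (q j) (q (j + 1)) with hS
      have h3 : Real.log (W / wgt w (k, c, r)) ≤ C₀ * L + r := by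
        unfold wgt
        rw [Real.log_div hW0.ne' (by positivity), Real.log_mul (by positivity) (by positivity),
          Real.log_div one_ne_zero (by positivity), Real.log_one, Real.log_pow, Real.log_pow]
        have h4 : Real.log (1 / 2) = -Real.log 2 := by rw [one_div, Real.log_inv]
        rw [h4]
        have h5 : Real.log 2 ≤ 1 := by
          have := Real.log_two_lt_d9
          linarith
        have h6 : (r : ℝ) * Real.log 2 ≤ r := mul_le_of_le_one_right (Nat.cast_nonneg r) h5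
        have h7 := le_abs_self (Real.log W)
        have h8 : |Real.log W| ≤ |Real.log W| * L := le_mul_of_one_le_right (abs_nonneg _) hL
        have h9 : C₀ * L = |Real.log W| * L + 2 * L := by rw [hC₀]; ring
        push_cast
        linarith
      have h10 : (2 : ℝ) ^ r * ((1 / 2) ^ r * S) = S := by
        rw [← mul_assoc, ← mul_pow]
        norm_num
      have h11 : (2 : ℝ) ^ r * (((1 / 2) ^ r) ^ 2 * J) = (1 / 2) ^ r * J := by
        rw [pow_two, mul_assoc ((1 / 2 : ℝ) ^ r), ← mul_assoc, ← mul_pow]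
        norm_num
      have h12 : (1 / 2 : ℝ) ^ r * S ≤ ((1 / 2) ^ r) ^ 2 * J + (C₀ * L + r) := h1.trans (by linarith)
      calc S = (2 : ℝ) ^ r * ((1 / 2) ^ r * S) := h10.symm
        _ ≤ (2 : ℝ) ^ r * (((1 / 2) ^ r) ^ 2 * J + (C₀ * L + r)) :=
            mul_le_mul_of_nonneg_left h12 (by positivity)
        _ = (1 / 2) ^ r * J + 2 ^ r * (C₀ * L + r) := by rw [mul_add, h11]
  have h1 := hone true
  have h2 := hone false
  have e1 : ∑ j ∈ Finset.range J, sgn true * Y j k (q j) (q (j + 1)) = ∑ j ∈ Finset.range J, Y j k (q j) (q (j + 1)) := by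
    simp [sgn]
  have e2 : ∑ j ∈ Finset.range J, sgn false * Y j k (q j) (q (j + 1)) =
      -∑ j ∈ Finset.range J, Y j k (q j) (q (j + 1)) := by
    simp [sgn]
  rw [e1] at h1
  rw [e2] at h2
  simp only [abs_of_nonneg hD0]
  rw [abs_le]
  constructor <;> linarith

end Pool.Agent.H68.GB
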