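import Pool.Agent.H49.BP.Zeta
import Pool.Agent.H73.KT.Der

set_option autoImplicit false

/-!
# Project GB (helper68), MP_7b7e48_nt: RH, the Lindelöf hypothesis and a regular distribution of the integers do not
imply the theorem of Linnik and Kátai (on RH every interval `[y, y + C log² y]` contains a sum of two primes)

For every `h` with `h(x) = O(x^ε)` for all `ε` there is a system of Beurling primes `q 0 < q 1 < ...` with `Disc q` (this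
gives RH, Lindelöf and `N(x) = ρ x + O(x^{1/2+ε})`, `H49/BP/Zeta.lean`) such that for arbitrarily large `y` no sum of two
primes lies in `[y, y + h(y)]`.

The engine is that of `H49/BP` (`MM x = ∫_1^x md`, `md u = (1 - 1/u)/log u`, slots `[tt n, tt (n+1))` of mass one,
`em m u = u^{-im}`). New: one slot (cell) `n` contains `c n ∈ {0, 2, 4}` primes at the places
`F (n + (θ n + i) / c n)`, `i < c n`, where `F` is the inverse function of `MM`.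

One scale `y = tt A ^ 4`: left windows `k < K`: cells `A + k W ≤ n < A + (k+1) W` (`4` points per cell if the random
signs `s k`, `s (k+1)` are both `true`, else none; probability `1/4`); right windows `k < K`: cells `b (k+1) ≤ n < b k`
(`2` points per cell if `s (k+1)` is `false`, else none), where `tt (b k) ≈ y - tt (A + k W)`. So a left point in window
`k` and a right point in window `j` never have `j = k` or `j = k - 1`.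
-/

namespace Pool.Agent.H68.GB

open MeasureTheory Filter Topology Set Pool.Agent.H49.BP

noncomputable section

theorem exists_F {v : ℝ} (hv : 0 ≤ v) : ∃ t : ℝ, 1 ≤ t ∧ MM t = v := by
  obtain ⟨B, hB⟩ := (MM_tendsto.eventually (eventually_ge_atTop v)).exists_forall_of_atTop
  have hB' := hB (max B 1) (le_max_left _ _)
  have hc : ContinuousOn MM (Icc 1 (max B 1)) := MM_cont.mono (fun x hx => hx.1)
  have h := intermediate_value_Icc (le_max_right B 1) hc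
  have hj : v ∈ Icc (MM 1) (MM (max B 1)) := ⟨by rw [MM_one]; exact hv, hB'⟩
  obtain ⟨t, ht, hte⟩ := h hj
  exact ⟨t, ht.1, hte⟩

/-- the inverse function of `MM` on `[0, ∞)` (and `1` on the negative numbers) -/
def F (v : ℝ) : ℝ := if hv : 0 ≤ v then (exists_F hv).choose else 1

/-- the points of the cell `n` (`c` of them, `i < c`) -/
def pt (c : ℕ) (θ : ℝ) (n i : ℕ) : ℝ := F (n + (θ + i) / c)

/-- the exponential sum of a cell -/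
def cs (m : ℤ) (c : ℕ) (θ : ℝ) (n : ℕ) : ℂ := ∑ i ∈ Finset.range c, em m (pt c θ n i)

/-- its expected value -/
def ci (m : ℤ) (n : ℕ) : ℂ := ∫ u in (tt n)..(tt (n + 1)), em m u * (md u : ℂ)

/-- `√(log (|m| + 3)) ≥ 1` (`L_ge`) -/
def LL (m : ℤ) : ℝ := √(Real.log (|(m : ℝ)| + 3))

/-- INV: the inverse function. (1)-(6) from `MM_lt_iff, MM_le_iff, MM_sub_le, MM_tt` (`H49/BP/Base.lean`); (7) substitution
(`intervalIntegral.integral_comp_mul_deriv'` for `v = MM u`, `MM' = md`); (8), (9): `MM x / x → 0`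
(`MM_inc_le`), `MM x ≥ (x - 2)/(2 log x)` (`le_MM_inc`). -/
def S_INV : Prop :=
  (∀ v : ℝ, 0 ≤ v → 1 ≤ F v ∧ MM (F v) = v) ∧
  (∀ u : ℝ, 1 ≤ u → F (MM u) = u) ∧
  (∀ n : ℕ, F n = tt n) ∧
  StrictMonoOn F (Ici 0) ∧ Monotone F ∧
  ContinuousOn F (Ici 0) ∧
  (∀ v w : ℝ, 0 ≤ v → v ≤ w → w - v ≤ F w - F v) ∧
  (∀ (m : ℤ) (a b : ℝ), 1 ≤ a → a ≤ b → ∫ v in a..b, em m (F v) = ∫ u in (F a)..(F b), em m u * (md u : ℂ)) ∧
  (∃ A0 : ℕ, 1 ≤ A0 ∧ ∀ n : ℕ, A0 ≤ n → 4 * (n : ℝ) + 8 ≤ tt n) ∧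
  ∃ A0 : ℕ, 1 ≤ A0 ∧ ∀ n : ℕ, A0 ≤ n → tt n ≤ (n : ℝ) ^ 2

/-- AVG: the average of a cell over `θ` (with `S_INV` (3), (4), (7)) -/
def S_AVG : Prop :=
  (∀ (m : ℤ) (c n : ℕ), Measurable (fun θ : ℝ => cs m c θ n)) ∧
  (∀ (m : ℤ) (c n : ℕ), 1 ≤ c → 1 ≤ n → ∫ θ in (0 : ℝ)..1, cs m c θ n = c * ci m n) ∧
  (∀ (m : ℤ) (c n : ℕ) (θ : ℝ), ‖cs m c θ n‖ ≤ c) ∧ ∀ (m : ℤ) (n : ℕ), ‖ci m n‖ ≤ 1

/-- DRH: derandomisation where the tests may depend on the previous choice: the proof of `KT.greedyG`, `KT.derandG`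
(`H73/KT/Der.lean`); `KT.stepG` applies with `fun _ p x => Y J p (previous choice) x`. The constant is
`2 (3 + (|log W| + 2) + 1/δ)`, it does not depend on `Y`. -/
def S_DRH : Prop := ∀ (Ω : Type) [MeasurableSpace Ω] [Nonempty Ω] (κ : Type) [Countable κ] (μ : Measure Ω)
  [IsProbabilityMeasure μ] (A : Set Ω) (w : κ → ℝ), μ Aᶜ = 0 → (∀ k, 0 ≤ w k) →
  Summable (fun k => 1 / (w k + 3) ^ 2) →
  ∃ CC : ℝ → ℝ, (∀ δ, 0 ≤ CC δ) ∧ ∀ Y : ℕ → κ → Ω → Ω → ℝ, (∀ j k y, Measurable (Y j k y)) →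
    (∀ j k y x, |Y j k y x| ≤ 1) → (∀ j k y, ∫ x, Y j k y x ∂μ = 0) →
    ∃ ω : ℕ → Ω, (∀ j, ω j ∈ A) ∧ ∀ δ : ℝ, 0 < δ → ∀ (k : κ) (J : ℕ),
      |∑ j ∈ Finset.range J, Y j k (ω j) (ω (j + 1))| ≤ CC δ * (J : ℝ) ^ (1 / 2 + δ) * √(Real.log (w k + 3))

/-- STP: the random choice in one scale, for given windows. DRH with `Ω = Bool × ℝ`, `μ = ` (uniform) `×` (Lebesgue on
`[0,1)`), `κ = ℤ × Bool × Bool` (frequency, real or imaginary part, left or right), `w = |m|`. The window `k` uses the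
signs of `ω k`, `ω (k+1)` and the `θ` of `ω (k+1)`. Left: with `g θ = ∑_{n in window k} cs m 4 θ n`,
`I k = ∑_{n in window k} ci m n` (so `∫ g = 4 I k`),
`Y k (prev) (cur) = (1[prev, cur] g θ_cur - 2 I k 1[prev] + (±1)_cur I (k+1)) / (9 B)` has mean zero in `cur`, and
`∑_{k < J} (1[prev, cur] g - I k) = ∑_{k < J} 9 B Y k + (±1)_{ω 0} I 0 - (±1)_{ω J} I J`.
Right: `Y k = (1[not cur] g' θ_cur - I' k) / (9 B)`. -/
def S_STP : Prop := ∃ CC : ℝ → ℝ, (∀ δ, 0 ≤ CC δ) ∧ ∀ (A W B : ℕ) (b : ℕ → ℕ), 1 ≤ A → 1 ≤ W → W ≤ B → Antitone b →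
  (∀ k, 1 ≤ b k) → (∀ k, b k ≤ b (k + 1) + B) →
  ∃ (s : ℕ → Bool) (θ : ℕ → ℝ), (∀ k, 0 ≤ θ k ∧ θ k < 1) ∧ ∀ δ : ℝ, 0 < δ → ∀ (m : ℤ) (J : ℕ),
    ‖∑ k ∈ Finset.range J, ∑ n ∈ Finset.Ico (A + k * W) (A + (k + 1) * W),
      (cs m (if s k && s (k + 1) then 4 else 0) (θ k) n - ci m n)‖ ≤ CC δ * B * (J : ℝ) ^ (1 / 2 + δ) * LL m ∧
    ‖∑ k ∈ Finset.range J, ∑ n ∈ Finset.Ico (b (k + 1)) (b k),
      (cs m (if s (k + 1) then 0 else 2) (θ k) n - ci m n)‖ ≤ CC δ * B * (J : ℝ) ^ (1 / 2 + δ) * LL m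

/-- GEO: the geometry of one scale, `y = tt A ^ 4`. `W = ⌈H + 2 log (2 y)⌉₊ + 1`, `z = y/2 - H - 4 log (2 y)`,
`K = ⌊(MM z - A)/W⌋₊` (so `tt (A + K W) ≤ z`), `b k = ⌊MM (y - tt (A + (min k K) W))⌋₊`, `e = ⌈MM (y + H)⌉₊ + 1`.
`tt (j + 1) - tt j ≤ 2 log (tt (j+1))` (`tt_succ_sub_le`), `MM` is 1-Lipschitz (`MM_sub_le`), so
`b k - b (k+1) ≤ tt (A + (k+1) W) - tt (A + k W) + 1 ≤ 2 W log (2y) + 1`. -/
def S_GEO : Prop := ∃ (C : ℝ) (A0 : ℕ), 0 ≤ C ∧ 1 ≤ A0 ∧ ∀ (A : ℕ) (H : ℝ), A0 ≤ A → 0 ≤ H → H ≤ tt A →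
  ∃ (W K B e : ℕ) (b : ℕ → ℕ), 1 ≤ W ∧ W ≤ B ∧ (B : ℝ) ≤ C * (H + 1) * Real.log (tt A) ^ 2 ∧
    Antitone b ∧ (∀ k, b k ≤ b (k + 1) + B) ∧ A + K * W ≤ b K ∧ b K ≤ A + K * W + B ∧ tt A ^ 2 ≤ b K ∧
    b 0 ≤ e ∧ (e : ℝ) ≤ b 0 + 5 * tt A ∧ 2 * A ≤ e ∧ tt A ^ 4 + H < tt e ∧
    tt (A + K * W) ≤ tt A ^ 4 / 2 ∧ tt A ^ 4 + H < 2 * tt (b K) ∧
    (∀ k, k ≤ K → tt (A + k * W) + tt (b k) ≤ tt A ^ 4) ∧
    ∀ k, k ≤ K → tt A ^ 4 + H < tt (A + (k + 1) * W) + tt (b k)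

/-- SCL: one scale, from STP and GEO. `c n = if s k && s (k+1) then 4 else 0` in the left window `k < K`,
`c n = if s (k+1) then 0 else 2` in the right window `k < K`, `c n = 0` elsewhere, `θ n = θ k`. -/
def S_SCL : Prop := ∃ (CC : ℝ → ℝ) (A0 : ℕ), (∀ δ, 0 ≤ CC δ) ∧ 1 ≤ A0 ∧ ∀ (A : ℕ) (H : ℝ), A0 ≤ A → 0 ≤ H → H ≤ tt A →
  ∃ (e : ℕ) (c : ℕ → ℕ) (θ : ℕ → ℝ), 2 * A ≤ e ∧ (∀ n, c n ≤ 4) ∧ (∀ n, 0 ≤ θ n ∧ θ n < 1) ∧
    tt A ^ 4 + H < tt e ∧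
    (∀ n i, A ≤ n → n < e → i < c n → pt (c n) (θ n) n i + tt A ≤ tt A ^ 4) ∧
    (∀ n i n' i', A ≤ n → n < e → i < c n → A ≤ n' → n' < e → i' < c n' →
      pt (c n) (θ n) n i + pt (c n') (θ n') n' i' < tt A ^ 4 ∨
      tt A ^ 4 + H < pt (c n) (θ n) n i + pt (c n') (θ n') n' i') ∧
    ∀ δ : ℝ, 0 < δ → ∀ (m : ℤ) (n : ℕ), A ≤ n → n ≤ e →
      ‖∑ n' ∈ Finset.Ico A n, (cs m (c n') (θ n') n' - ci m n')‖ ≤
        CC δ * (H + 1) * Real.log (tt A) ^ 2 * (n : ℝ) ^ (1 / 2 + δ) * LL m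

/-- a system of cells -/
def Sys (c : ℕ → ℕ) (θ : ℕ → ℝ) : Prop := (∀ n, c n ≤ 4) ∧ (∀ n, 0 ≤ θ n ∧ θ n < 1) ∧
  (∃ A0 : ℕ, 1 ≤ A0 ∧ (∀ n, n < A0 → c n = 0) ∧ ∀ n : ℕ, A0 ≤ n → 4 * (n : ℝ) + 8 ≤ tt n) ∧
  ∀ δ : ℝ, 0 < δ → ∃ C : ℝ, 0 ≤ C ∧ ∀ (m : ℤ) (n : ℕ),
    ‖∑ n' ∈ Finset.range n, (cs m (c n') (θ n') n' - ci m n')‖ ≤ C * (n : ℝ) ^ (1 / 2 + δ) * LL m

/-- GLU: `A 0` large, `A (i+1) = e i`, `y i = tt (A i) ^ 4`, `H i = max (h (y i)) 0`; `h(y) ≤ C y^{1/16}` gives `H ≤ tt A`.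
A point before `A i` plus a point of the scale `i` is `< y i` (fifth part of SCL, `F < tt A` before the cell `A`); points
after `e` are `≥ tt e > y + h y`. Discrepancy: sum over the at most `n` scales before (`2^i ≤ A i`). -/
def S_GLU : Prop := ∀ h : ℝ → ℝ, (∀ ε : ℝ, 0 < ε → ∃ C : ℝ, ∀ x : ℝ, 1 ≤ x → h x ≤ C * x ^ ε) →
  ∃ (c : ℕ → ℕ) (θ : ℕ → ℝ), Sys c θ ∧ ∀ Y : ℝ, ∃ y : ℝ, Y ≤ y ∧ ∀ n i n' i', i < c n → i' < c n' →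
    pt (c n) (θ n) n i + pt (c n') (θ n') n' i' < y ∨ y + h y < pt (c n) (θ n) n i + pt (c n') (θ n') n' i'

/-- ENU: the enumeration of the points in increasing order; the number of points is infinite by the case `m = 0` of the
discrepancy; `Disc q`: `x` in the slot `n`, the points of the cells `< n` and at most `4` points more. -/
def S_ENU : Prop := ∀ (c : ℕ → ℕ) (θ : ℕ → ℝ), Sys c θ → ∃ q : ℕ → ℝ, StrictMono q ∧ (∀ j : ℕ, (j : ℝ) + 1 ≤ q j) ∧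
  1 < q 0 ∧ (∀ j, ∃ n i, i < c n ∧ q j = pt (c n) (θ n) n i) ∧ Disc q

end

end Pool.Agent.H68.GB
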